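import Pool.Agent.Lib.SmNH.G.Count
import Pool.Agent.Lib.SmNH.G.CritR

/-!
# HEIGHTS over SMITH-U, block G_h, module CountOk: the number of lifts

`card_lift`, `card_lift_sum`: the number of the lifts under doubling as a sum of the characters
`sgn (CTr y b)`. (`card_isRel`: `#IsRel = #IsStr * fixN`, is in `Count`.)
-/

set_option autoImplicit false

namespace Pool.Agent.SmNH

open Pool.Agent.SmN Pool.Agent.SmN.Sys

variable {G V V1 Pl : Type*} [Group G] [AddCommGroup V] [DistribMulAction G V]
  [AddCommGroup V1] [Module (ZMod 2) V1]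
variable {S : Sys G V V1 Pl} {chi : G → ZMod 2} {i : ℕ} {y : (G → V) × (Pl → V)}

/-- The number of the lifts of `y` of level `i + 1`. -/
theorem card_lift (h : S.Ok) (hB : BadOk S) (hchi : S.HomG chi)
    (hf : Finite {b : G → V1 // IsRel S chi b}) (hy : IsPr S chi i y) :
    (Nat.card {y' : (G → V) × (Pl → V) // IsPr S chi (i + 1) y' ∧ (2 : ℕ) • y' = y} : ℤ) =
      ∑ᶠ b : {b : G → V1 // IsRel S chi b}, sgn (CTr S chi y b.1) :=
  card_lift_of h hB hchi hf (ctr_crit h hB hchi hy) hy

/-- The number of the elements of level `i + 1` whose double satisfies `P`. -/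
theorem card_lift_sum (h : S.Ok) (hB : BadOk S) (hchi : S.HomG chi)
    (hf : Finite {b : G → V1 // IsRel S chi b}) (P : (G → V) × (Pl → V) → Prop) :
    (Nat.card {y' : (G → V) × (Pl → V) // IsPr S chi (i + 1) y' ∧ P ((2 : ℕ) • y')} : ℤ) =
      ∑ᶠ y : {y : (G → V) × (Pl → V) // IsPr S chi i y ∧ P y},
        ∑ᶠ b : {b : G → V1 // IsRel S chi b}, sgn (CTr S chi y.1 b.1) :=
  card_lift_sum_of h hB hchi hf (fun _ hy => ctr_crit h hB hchi hy) P

/-- The number of the elements of level `i + 1` is at most the number of the elements of level `i`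
times the order of the relaxed Selmer group. -/
theorem card_isPr_succ_le (h : S.Ok) (hB : BadOk S) (hchi : S.HomG chi)
    (hf : Finite {b : G → V1 // IsRel S chi b}) :
    Nat.card {y : (G → V) × (Pl → V) // IsPr S chi (i + 1) y} ≤
      Nat.card {y : (G → V) × (Pl → V) // IsPr S chi i y} *
        Nat.card {b : G → V1 // IsRel S chi b} := by
  have h1 : Finite (RS S h chi (i + 1)) := finite_isPr h hchi hf (i + 1)
  have h2 : Finite (RS S h chi i) := finite_isPr h hchi hf i
  have h3 := card_hom (dbl S h chi i)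
  have h4 : Nat.card (dbl S h chi i).ker = Nat.card {b : G → V1 // IsRel S chi b} := by
    rw [card_isRel h hB hchi, ← card_ker h hchi (finite_isStr hf) i]
    exact Nat.card_congr
      { toFun := fun y => ⟨y.1.1, y.1.2, congrArg Subtype.val (AddMonoidHom.mem_ker.1 y.2)⟩
        invFun := fun y => ⟨⟨y.1, y.2.1⟩, AddMonoidHom.mem_ker.2 (Subtype.ext y.2.2)⟩
        left_inv := fun _ => rfl
        right_inv := fun _ => rfl }
  have h5 : Nat.card (dbl S h chi i).range ≤ Nat.card (RS S h chi i) :=
    Nat.card_le_card_of_injective _ Subtype.val_injective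
  rw [h4] at h3
  change Nat.card (RS S h chi (i + 1)) ≤ Nat.card (RS S h chi i) * _
  rw [← h3, mul_comm]
  exact Nat.mul_le_mul_right _ h5

end Pool.Agent.SmNH
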