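import Pool.Agent.Lib.SmNH.G.Pr
import Pool.Agent.Lib.SmNH.Shrink
import Pool.Agent.Lib.SmNH.StmtsJ
import Pool.Agent.Lib.SmN.G6.Codes

/-!
# HEIGHTS over SMITH-U, block G_h, module ExW (4.2): existence of the inhomogeneous solution `w`

* `exists_free`: duality with free conditions at the bad places and conditions `w - xi v ∈ W v` at
  the good places: a solution exists iff `xi` is orthogonal to the strict Selmer group.
* `exists_w`: the case `xi v = (0, deg v • a (sg v))`.
* `isRel_homN_iff`, `isRel_surj`, `exists_wcode`: the same in terms of codes over a vector of marked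
  primes, if the good places are the places of the prime system.
-/

set_option autoImplicit false

namespace Pool.Agent.SmNH.ExW

open Pool.Agent.SmNH Pool.Agent.SmN Pool.Agent.SmN.Sys

section abs

variable {G V V1 Pl : Type*} [Group G] [AddCommGroup V] [DistribMulAction G V]
  [AddCommGroup V1] [Module (ZMod 2) V1]
variable {S : Sys G V V1 Pl} {chi : G → ZMod 2}

/-- The 2-Selmer group as a subspace. -/
def selSub (S : Sys G V V1 Pl) (h : S.Ok) (chi : G → ZMod 2) : Submodule (ZMod 2) (G → V1) where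
  carrier := {b | S.IsSel1 chi b}
  zero_mem' := IsSel1.zero h chi
  add_mem' := fun hb hb' => hb.add h hb'
  smul_mem' := fun a b hb => by
    rcases (by decide : ∀ a : ZMod 2, a = 0 ∨ a = 1) a with rfl | rfl
    · rw [zero_smul]
      exact IsSel1.zero h chi
    · rwa [one_smul]

/-- The families of local cocycles at the bad places. -/
def cpSub (S : Sys G V V1 Pl) (h : S.Ok) :
    Submodule (ZMod 2) ({v : Pl // v ∉ S.good} → V1 × V1) where
  carrier := {y | ∀ v, y v ∈ S.CP v.1}
  zero_mem' := fun v => by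
    have h1 := cob_mem_CP h v.1 0
    rwa [cob_zero] at h1
  add_mem' := fun {x y} hx hy v => by
    change x v + y v ∈ S.CP v.1
    exact CP_add h (hx v) (hy v)
  smul_mem' := fun a y hy => by
    rcases (by decide : ∀ a : ZMod 2, a = 0 ∨ a = 1) a with rfl | rfl
    · rw [zero_smul]
      intro v
      have h1 := cob_mem_CP h v.1 0
      rwa [cob_zero] at h1
    · rwa [one_smul]

/-- The local symbols of `xi` with a Selmer element have finite support. -/
theorem sy_xi_fin (h : S.Ok) (hchi : S.HomG chi) {xi : Pl → V1 × V1}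
    (hxi : {v | v ∈ S.good ∧ xi v ∉ S.Wl chi v}.Finite) {b : G → V1} (hb : IsRel S chi b) :
    {v | v ∈ S.good ∧ S.sy v (xi v) (S.loc v b) ≠ 0}.Finite := by
  refine hxi.subset ?_
  rintro v ⟨hv, hne⟩
  exact ⟨hv, fun hx => hne (h.isot chi hchi v _ hx _ (hb.2 v hv))⟩

open Classical in
/-- The sum of the symbols at the good places. -/
noncomputable def goodSum (S : Sys G V V1 Pl) (xi : Pl → V1 × V1) (b : G → V1) : ZMod 2 :=
  ∑ᶠ v, if v ∈ S.good then S.sy v (xi v) (S.loc v b) else 0

theorem goodSum_fin (h : S.Ok) (hchi : S.HomG chi) {xi : Pl → V1 × V1}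
    (hxi : {v | v ∈ S.good ∧ xi v ∉ S.Wl chi v}.Finite) {b : G → V1} (hb : IsRel S chi b) :
    open Classical in
    {v | (if v ∈ S.good then S.sy v (xi v) (S.loc v b) else 0) ≠ 0}.Finite := by
  classical
  refine (sy_xi_fin h hchi hxi hb).subset ?_
  intro v hv
  by_cases hg : v ∈ S.good
  · rw [Set.mem_ofPred_eq, if_pos hg] at hv
    exact ⟨hg, hv⟩
  · rw [Set.mem_ofPred_eq, if_neg hg] at hv
    exact absurd rfl hv

/-- **Duality with free conditions at the bad places.** -/
theorem exists_free (h : S.Ok) (hB : BadOk S) (hchi : S.HomG chi) (xi : Pl → V1 × V1)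
    (hcp : ∀ v ∈ S.good, xi v ∈ S.CP v)
    (hxi : {v | v ∈ S.good ∧ xi v ∉ S.Wl chi v}.Finite)
    (ho : ∀ b, IsStr S chi b → goodSum S xi b = 0) :
    ∃ w : G → V1, S.CocG w ∧ ∀ v ∈ S.good, S.loc v w - xi v ∈ S.Wl chi v := by
  classical
  have := finite_bad h
  have : Fintype {v : Pl // v ∉ S.good} := Fintype.ofFinite _
  have := h.fin1
  -- the functional on the Selmer group
  let f : selSub S h chi →ₗ[ZMod 2] ZMod 2 :=
    { toFun := fun b => goodSum S xi b.1
      map_add' := fun b b' => by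
        have h1 := goodSum_fin h hchi hxi (isRel_of_isSel1 b.2)
        have h2 := goodSum_fin h hchi hxi (isRel_of_isSel1 b'.2)
        rw [goodSum, goodSum, goodSum, ← finsum_add_distrib h1 h2]
        refine finsum_congr fun v => ?_
        by_cases hg : v ∈ S.good
        · rw [if_pos hg, if_pos hg, if_pos hg]
          change S.sy v (xi v) (S.loc v (b.1 + b'.1)) = _
          rw [loc_add, map_add]
        · rw [if_neg hg, if_neg hg, if_neg hg, add_zero]
      map_smul' := fun a b => by
        rcases (by decide : ∀ a : ZMod 2, a = 0 ∨ a = 1) a with rfl | rfl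
        · simp only [zero_smul, RingHom.id_apply]
          change goodSum S xi 0 = 0
          rw [goodSum]
          refine finsum_eq_zero_of_forall_eq_zero fun v => ?_
          by_cases hg : v ∈ S.good
          · rw [if_pos hg]
            exact map_zero (S.sy v (xi v))
          · rw [if_neg hg]
        · simp only [one_smul, RingHom.id_apply] }
  -- the pairing of the local cocycles with the Selmer group
  let T : cpSub S h →ₗ[ZMod 2] (selSub S h chi →ₗ[ZMod 2] ZMod 2) :=
    LinearMap.mk₂ (ZMod 2) (fun y b => ∑ v, S.sy v.1 (y.1 v) (S.loc v.1 b.1))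
      (fun y y' b => by
        rw [← Finset.sum_add_distrib]
        exact Finset.sum_congr rfl fun v _ => by
          change S.sy v.1 (y.1 v + y'.1 v) _ = _
          rw [map_add, LinearMap.add_apply])
      (fun a y b => by
        rw [Finset.smul_sum]
        exact Finset.sum_congr rfl fun v _ => by
          change S.sy v.1 (a • y.1 v) _ = _
          rw [map_smul, LinearMap.smul_apply])
      (fun y b b' => by
        rw [← Finset.sum_add_distrib]
        exact Finset.sum_congr rfl fun v _ => by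
          change S.sy v.1 _ (S.loc v.1 b.1 + S.loc v.1 b'.1) = _
          rw [map_add])
      (fun a y b => by
        rw [Finset.smul_sum]
        exact Finset.sum_congr rfl fun v _ => by
          change S.sy v.1 _ (a • S.loc v.1 b.1) = _
          rw [map_smul])
  have hT : ∀ (y : cpSub S h) (b : selSub S h chi),
      T y b = ∑ v, S.sy v.1 (y.1 v) (S.loc v.1 b.1) := fun _ _ => rfl
  have hmem : f ∈ Submodule.span (ZMod 2) (Set.range fun y : cpSub S h => T y) := by
    refine mem_span_of_iInf_ker_le_ker fun b hb => ?_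
    rw [Submodule.mem_iInf] at hb
    refine LinearMap.mem_ker.2 (ho b.1 ⟨b.2, fun v hv => ?_⟩)
    refine hB.nd v hv _ (loc_mem_CP b.2.1 v) fun y hy => ?_
    have h1 := LinearMap.mem_ker.1 (hb (⟨fun u => if u = (⟨v, hv⟩ : {v : Pl // v ∉ S.good}) then y
      else 0, fun u => by
        by_cases hu : u = (⟨v, hv⟩ : {v : Pl // v ∉ S.good})
        · subst hu
          simp only [if_true]
          exact hy
        · simp only [if_neg hu]
          have h1 := cob_mem_CP h u.1 0
          rwa [cob_zero] at h1⟩ : cpSub S h))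
    rw [hT, Finset.sum_eq_single (⟨v, hv⟩ : {v : Pl // v ∉ S.good})] at h1
    · simpa using h1
    · intro u _ hu
      simp only [if_neg hu]
      rw [map_zero, LinearMap.zero_apply]
    · exact fun h2 => absurd (Finset.mem_univ _) h2
  have hle : Submodule.span (ZMod 2) (Set.range fun y : cpSub S h => T y) ≤
      LinearMap.range T := Submodule.span_le.2 (by
    rintro _ ⟨y, rfl⟩
    exact ⟨y, rfl⟩)
  obtain ⟨mu, hmu⟩ := hle hmem
  have hgsum : ∀ b : selSub S h chi, f b = ∑ v : {v : Pl // v ∉ S.good},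
      S.sy v.1 (mu.1 v) (S.loc v.1 b.1) := fun b => by rw [← hmu, hT]
  -- the complete family of local conditions
  let xi' : Pl → V1 × V1 := fun v => if hv : v ∉ S.good then mu.1 ⟨v, hv⟩ else xi v
  have hxi' : {v | xi' v ∉ S.W chi v}.Finite := by
    refine (h.good_fin.union hxi).subset ?_
    intro v hv
    by_cases hg : v ∈ S.good
    · refine Or.inr ⟨hg, ?_⟩
      intro h1
      apply hv
      change xi' v ∈ S.Wl chi v
      simp only [xi', dif_neg (not_not.2 hg)]
      exact h1
    · exact Or.inl hg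
  obtain ⟨w, hw, hloc⟩ := h.dual (S.W chi) (fun v x hx => Wl_sub_CP h hchi v hx)
    (fun v z => cob_mem_Wl h chi v z) (card_W h hchi)
    (fun v x hx y hy => h.isot chi hchi v x hx y hy) (exc_fin h hchi) xi'
    (fun v => by
      by_cases hg : v ∈ S.good
      · simp only [xi', dif_neg (not_not.2 hg)]
        exact hcp v hg
      · simp only [xi', dif_pos hg]
        exact mu.2 ⟨v, hg⟩) hxi' (by
      intro b hb1 hb2
      have hb : S.IsSel1 chi b := ⟨hb1, hb2⟩
      have e1 : ∀ v, S.sy v (xi' v) (S.loc v b) =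
          (if v ∈ S.good then S.sy v (xi v) (S.loc v b) else 0) +
          (if hv : v ∉ S.good then S.sy v (mu.1 ⟨v, hv⟩) (S.loc v b) else 0) := by
        intro v
        by_cases hg : v ∈ S.good
        · simp only [xi', dif_neg (not_not.2 hg), if_pos hg, add_zero]
        · simp only [xi', dif_pos hg, if_neg hg, zero_add]
      have hfin2 : {v | (if hv : v ∉ S.good then S.sy v (mu.1 ⟨v, hv⟩) (S.loc v b) else 0) ≠
          0}.Finite := by
        refine h.good_fin.subset ?_
        intro v hv hg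
        apply hv
        rw [dif_neg (not_not.2 hg)]
      rw [finsum_congr e1, finsum_add_distrib (goodSum_fin h hchi hxi (isRel_of_isSel1 hb)) hfin2]
      change goodSum S xi b + _ = 0
      have e2 : goodSum S xi b = ∑ v : {v : Pl // v ∉ S.good},
          S.sy v.1 (mu.1 v) (S.loc v.1 b) := hgsum ⟨b, hb⟩
      have e3 : ∑ᶠ v, (if hv : v ∉ S.good then S.sy v (mu.1 ⟨v, hv⟩) (S.loc v b) else 0) =
          ∑ v : {v : Pl // v ∉ S.good}, S.sy v.1 (mu.1 v) (S.loc v.1 b) := by
        rw [← finsum_eq_sum_of_fintype]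
        have e4 : ∑ᶠ v : {v : Pl // v ∉ S.good}, S.sy v.1 (mu.1 v) (S.loc v.1 b) =
            ∑ᶠ v ∈ {v : Pl | v ∉ S.good},
              (if hv : v ∉ S.good then S.sy v (mu.1 ⟨v, hv⟩) (S.loc v b) else 0) := by
          rw [← finsum_set_coe_eq_finsum_mem]
          refine finsum_congr fun v => ?_
          have hv : v.1 ∉ S.good := v.2
          rw [dif_pos hv]
        rw [e4]
        refine finsum_congr fun v => ?_
        by_cases hg : v ∈ S.good
        · rw [dif_neg (not_not.2 hg)]
          simp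
        · have hv : v ∈ {v : Pl | v ∉ S.good} := hg
          rw [finsum_eq_if, if_pos hv]
      rw [e2, e3]
      exact CharTwo.add_self_eq_zero _)
  refine ⟨w, hw, fun v hv => ?_⟩
  have h1 : S.loc v w - xi' v ∈ S.Wl chi v := hloc v
  simp only [xi', dif_neg (not_not.2 hv)] at h1
  exact h1

/-- The symbol with an unramified pair. -/
theorem sy_zero_fst (h : S.Ok) {v : Pl} (hv : v ∈ S.good) (x : V1) {b : G → V1}
    (hb : S.CocG b) : S.sy v (0, x) (S.loc v b) = S.e x (b (S.sg v)) :=
  h.sy_unr v hv _ (CP_of_unr h hv rfl) _ (loc_mem_CP hb v) rfl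

/-- **Existence of `w` (4.2).** -/
theorem exists_w (h : S.Ok) (hB : BadOk S) (hchi : S.HomG chi) (deg : Pl → ℕ) (a : G → V1)
    (ho : ∀ b, IsStr S chi b → ∑ᶠ (v : Pl) (_ : v ∈ S.good),
      (deg v : ZMod 2) * S.e (a (S.sg v)) (b (S.sg v)) = 0) :
    ∃ w : G → V1, S.CocG w ∧ ∀ v ∈ S.good,
      S.loc v w - (0, (deg v : ZMod 2) • a (S.sg v)) ∈ S.Wl chi v := by
  classical
  refine exists_free h hB hchi (fun v => (0, (deg v : ZMod 2) • a (S.sg v)))
    (fun v hv => CP_of_unr h hv rfl) ?_ fun b hb => ?_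
  · refine (exc_fin h hchi).subset ?_
    rintro v ⟨_, hv⟩ h0
    exact hv ((h0 _).2 rfl)
  · rw [goodSum]
    refine (finsum_congr fun v => ?_).trans (ho b hb)
    by_cases hg : v ∈ S.good
    · rw [if_pos hg, sy_zero_fst h hg _ hb.1.1, map_smul, LinearMap.smul_apply, smul_eq_mul,
        finsum_eq_if, if_pos hg]
    · rw [if_neg hg, finsum_eq_if, if_neg hg]

/-- The converse: if `w` exists, `a` is orthogonal to the strict Selmer group. -/
theorem w_orth (h : S.Ok) (hchi : S.HomG chi) (deg : Pl → ℕ) {a w : G → V1} (hw : S.CocG w)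
    (hwl : ∀ v ∈ S.good, S.loc v w - (0, (deg v : ZMod 2) • a (S.sg v)) ∈ S.Wl chi v)
    {b : G → V1} (hb : IsStr S chi b) :
    ∑ᶠ (v : Pl) (_ : v ∈ S.good), (deg v : ZMod 2) * S.e (a (S.sg v)) (b (S.sg v)) = 0 := by
  classical
  rw [← h.recip w b hw hb.1.1]
  refine finsum_congr fun v => ?_
  rw [finsum_eq_if]
  by_cases hg : v ∈ S.good
  · rw [if_pos hg]
    have h1 := h.isot chi hchi v _ (hwl v hg) _ (hb.1.2 v)
    have h2 : S.loc v w = (S.loc v w - (0, (deg v : ZMod 2) • a (S.sg v))) +
        (0, (deg v : ZMod 2) • a (S.sg v)) := (sub_add_cancel _ _).symm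
    rw [h2, map_add, LinearMap.add_apply, h1, zero_add, sy_zero_fst h hg _ hb.1.1, map_smul,
      LinearMap.smul_apply, smul_eq_mul]
  · rw [if_neg hg]
    obtain ⟨z, hz⟩ := hb.2 v hg
    rw [hz, h.sy_cob v _ (loc_mem_CP hw v)]

end abs

section codes

variable {G V V1 Pl : Type} [Group G] [AddCommGroup V] [DistribMulAction G V]
  [AddCommGroup V1] [Module (ZMod 2) V1] {S : Sys G V V1 Pl} {X : PSys} {cd : CData S X}
  {J : Type} [Fintype J] {p : J → cd.Mk}

/-- The good places are the places of the prime system. -/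
theorem good_cases (hg : S.good = Set.range cd.pl) {v : Pl} (hv : v ∈ S.good) :
    ∃ P, cd.pl P = v := by rwa [hg] at hv

/-- The relaxed Selmer group in codes. -/
theorem isRel_homN_iff (h : S.Ok) (hc : cd.Ok) (hg : S.good = Set.range cd.pl)
    {c : cd.CodeN J} (hv : cd.ValidN p c) :
    IsRel S (cd.chiN p) (cd.homN p c) ↔ c ∈ cd.SelpN p := by
  have hchi := CData.chiN_hom h hc p
  constructor
  · intro hr
    exact ⟨hv, fun j => hr.2 _ (hc.pl_good _)⟩
  · intro hs
    refine ⟨CData.homN_coc h hc hv, fun v hvg => ?_⟩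
    obtain ⟨P, rfl⟩ := good_cases hg hvg
    by_cases hj : ∃ j, (p j).1 = P
    · obtain ⟨j, rfl⟩ := hj
      exact hs.2 j
    · push Not at hj
      rw [mem_Wl_good h hchi hvg (CData.chiN_unr hc hj)]
      exact CData.homN_unr hc hv hj

/-- Every element of the relaxed Selmer group comes from a code. -/
theorem isRel_surj (h : S.Ok) (hc : cd.Ok) (hg : S.good = Set.range cd.pl) (hp : cd.PVecN p)
    {b : G → V1} (hb : IsRel S (cd.chiN p) b) : ∃ c ∈ cd.SelpN p, cd.homN p c = b := by
  obtain ⟨c, hv, hcb⟩ := CData.homN_surj_of h hc hp hb.1 (fun Q hQ => by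
    have h1 := hb.2 _ (hc.pl_good Q)
    rw [mem_Wl_good h (CData.chiN_hom h hc p) (hc.pl_good Q) (CData.chiN_unr hc hQ)] at h1
    exact h1)
  refine ⟨c, ?_, hcb⟩
  rw [← isRel_homN_iff h hc hg hv, hcb]
  exact hb

/-- A solution of the inhomogeneous system satisfies the local conditions at all the good places. -/
theorem wcode_loc (h : S.Ok) (hc : cd.Ok) (hg : S.good = Set.range cd.pl) {deg : Pl → ℕ}
    (hd : ∀ P, deg (cd.pl P) = X.deg P) {a w : cd.CodeN J} (hwv : cd.ValidN p w)
    (hw : ∀ l, cd.InhN p w a l) :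
    ∀ v ∈ S.good, S.loc v (cd.homN p w) -
      (0, (deg v : ZMod 2) • cd.homN p a (S.sg v)) ∈ S.Wl (cd.chiN p) v := by
  have hchi := CData.chiN_hom h hc p
  intro v hv
  obtain ⟨P, rfl⟩ := good_cases hg hv
  by_cases hj : ∃ j, (p j).1 = P
  · obtain ⟨j, rfl⟩ := hj
    rw [hd]
    exact hw j
  · push Not at hj
    rw [mem_Wl_good h hchi hv (CData.chiN_unr hc hj), Prod.fst_sub, sub_zero]
    exact CData.homN_unr hc hwv hj

/-- **Existence of the code `w`.** -/
theorem exists_wcode (h : S.Ok) (hB : BadOk S) (hc : cd.Ok) (hp : cd.PVecN p)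
    {deg : Pl → ℕ} (hd : ∀ P, deg (cd.pl P) = X.deg P) (a : cd.CodeN J)
    (hno : ¬ ∃ w : cd.CodeN J, cd.ValidN p w ∧ ∀ l, cd.InhN p w a l) :
    ∃ b, IsStr S (cd.chiN p) b ∧ ∑ᶠ (v : Pl) (_ : v ∈ S.good),
      (deg v : ZMod 2) * S.e (cd.homN p a (S.sg v)) (b (S.sg v)) = 1 := by
  have hchi := CData.chiN_hom h hc p
  by_contra hcon
  push Not at hcon
  apply hno
  obtain ⟨w, hw, hwl⟩ := exists_w h hB hchi deg (cd.homN p a) (fun b hb =>
    ((by decide : ∀ a : ZMod 2, a = 0 ∨ a = 1) _).resolve_right (hcon b hb))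
  obtain ⟨c, hcv, rfl⟩ := CData.homN_surj_of h hc hp hw (fun Q hQ => by
    have h1 := hwl _ (hc.pl_good Q)
    rw [mem_Wl_good h hchi (hc.pl_good Q) (CData.chiN_unr hc hQ), Prod.fst_sub, sub_zero] at h1
    exact h1)
  refine ⟨c, hcv, fun l => ?_⟩
  have h1 := hwl _ (hc.pl_good (p l).1)
  rw [hd] at h1
  exact h1

/-- If the code `w` exists, `a` is orthogonal to the strict Selmer group. -/
theorem wcode_orth (h : S.Ok) (hc : cd.Ok) (hg : S.good = Set.range cd.pl) {deg : Pl → ℕ}
    (hd : ∀ P, deg (cd.pl P) = X.deg P) {a w : cd.CodeN J}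
    (hwv : cd.ValidN p w) (hw : ∀ l, cd.InhN p w a l) {b : G → V1}
    (hb : IsStr S (cd.chiN p) b) : ∑ᶠ (v : Pl) (_ : v ∈ S.good),
      (deg v : ZMod 2) * S.e (cd.homN p a (S.sg v)) (b (S.sg v)) = 0 :=
  w_orth h (CData.chiN_hom h hc p) deg (CData.homN_coc h hc hwv)
    (wcode_loc h hc hg hd hwv hw) hb

end codes

end Pool.Agent.SmNH.ExW
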