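import Pool.Agent.Lib.SmNH.Defs
import Pool.Agent.Lib.SmN.G.Crit

/-!
# HEIGHTS over SMITH-U, block G_h, module Pr: rigid Selmer elements, relaxed and strict Selmer groups

Port of `Lib/SmH/G/Pr.lean` to `SmN.Sys`. `RS S h chi i` = the group of the rigid Selmer elements of
level `i`, `Rel`, `Str` = the relaxed and the strict Selmer group. The kernel of doubling consists of
the elements `prB b w`, `b` in the strict Selmer group, `b = dl (iota (w v))` on `D v` for the bad
places `v`. Finiteness of `RS i` if `Rel` is finite.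
-/

set_option autoImplicit false

namespace Pool.Agent.SmNH

open Pool.Agent.SmN Pool.Agent.SmN.Sys

variable {G V V1 Pl : Type*} [Group G] [AddCommGroup V] [DistribMulAction G V]
  [AddCommGroup V1] [Module (ZMod 2) V1]
variable {S : Sys G V V1 Pl} {chi : G → ZMod 2} {i j : ℕ} {y y' : (G → V) × (Pl → V)}

/-! ### rigid Selmer elements -/

theorem IsPr.add (h : S.Ok) (hy : IsPr S chi i y) (hy' : IsPr S chi i y') :
    IsPr S chi i (y + y') where
  sel := hy.sel.add h hy'.sel
  loc := fun v hv s hs => by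
    rw [Prod.fst_add, Prod.snd_add, Pi.add_apply, Pi.add_apply, dl_add, hy.loc v hv s hs,
      hy'.loc v hv s hs]
  off := fun v hv => by rw [Prod.snd_add, Pi.add_apply, hy.off v hv, hy'.off v hv, add_zero]

theorem IsPr.neg (hy : IsPr S chi i y) : IsPr S chi i (-y) where
  sel := hy.sel.neg
  loc := fun v hv s hs => by
    rw [Prod.fst_neg, Prod.snd_neg, Pi.neg_apply, Pi.neg_apply, dl_neg, hy.loc v hv s hs]
  off := fun v hv => by rw [Prod.snd_neg, Pi.neg_apply, hy.off v hv, neg_zero]

theorem IsPr.zero (h : S.Ok) (chi : G → ZMod 2) (i : ℕ) :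
    IsPr S chi i (0 : (G → V) × (Pl → V)) where
  sel := IsSel.zero h chi i
  loc := fun v _ s _ => by
    rw [Prod.fst_zero, Prod.snd_zero, Pi.zero_apply, Pi.zero_apply, dl_zero]
  off := fun v _ => rfl

theorem IsPr.sub (h : S.Ok) (hy : IsPr S chi i y) (hy' : IsPr S chi i y') :
    IsPr S chi i (y - y') := by
  rw [sub_eq_add_neg]
  exact hy.add h hy'.neg

theorem IsPr.nsmul (h : S.Ok) (hy : IsPr S chi i y) (n : ℕ) : IsPr S chi i (n • y) := by
  induction n with
  | zero => rw [zero_nsmul]; exact IsPr.zero h chi i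
  | succ n ih => rw [succ_nsmul]; exact ih.add h hy

theorem IsPr.zsmul (h : S.Ok) (hy : IsPr S chi i y) (n : ℤ) : IsPr S chi i (n • y) := by
  cases n with
  | ofNat n => simpa using hy.nsmul h n
  | negSucc n => rw [negSucc_zsmul]; exact (hy.nsmul h _).neg

theorem IsPr.mono (hij : i ≤ j) (hy : IsPr S chi i y) : IsPr S chi j y where
  sel := hy.sel.mono hij
  loc := hy.loc
  off := hy.off

theorem IsPr.of_lev (hy : IsPr S chi j y) (hi : ∀ s, (2 : ℕ) ^ i • y.1 s = 0) :
    IsPr S chi i y where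
  sel := hy.sel.of_lev hi
  loc := hy.loc
  off := hy.off

/-- Doubling lowers the level. -/
theorem IsPr.two (hy : IsPr S chi (i + 1) y) : IsPr S chi i ((2 : ℕ) • y) where
  sel := hy.sel.two
  loc := fun v hv s hs => by
    rw [Prod.smul_fst, Prod.smul_snd, Pi.smul_apply, Pi.smul_apply, dl_nsmul, hy.loc v hv s hs]
  off := fun v hv => by rw [Prod.smul_snd, Pi.smul_apply, hy.off v hv, smul_zero]

/-- The rigid Selmer elements of level `i` as a group. -/
def RS (S : Sys G V V1 Pl) (h : S.Ok) (chi : G → ZMod 2) (i : ℕ) :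
    AddSubgroup ((G → V) × (Pl → V)) where
  carrier := {y | IsPr S chi i y}
  zero_mem' := IsPr.zero h chi i
  add_mem' := fun hy hy' => IsPr.add h hy hy'
  neg_mem' := fun hy => IsPr.neg hy

theorem mem_RS {h : S.Ok} : y ∈ RS S h chi i ↔ IsPr S chi i y := Iff.rfl

theorem RS_mono (h : S.Ok) (chi : G → ZMod 2) (hij : i ≤ j) : RS S h chi i ≤ RS S h chi j :=
  fun _ hy => IsPr.mono hij hy

/-! ### torsion elements -/

theorem tor_fst (z : V) : (tor S chi z).1 = dl chi z := rfl

theorem tor_snd_bad {v : Pl} (hv : v ∉ S.good) (z : V) : (tor S chi z).2 v = z := by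
  simp only [tor, if_neg hv]

theorem tor_snd_good {v : Pl} (hv : v ∈ S.good) (z : V) : (tor S chi z).2 v = 0 := by
  simp only [tor, if_pos hv]

theorem tor_add (z z' : V) : tor S chi (z + z') = tor S chi z + tor S chi z' := by
  refine Prod.ext (funext fun s => ?_) (funext fun v => ?_)
  · rw [Prod.fst_add, Pi.add_apply, tor_fst, tor_fst, tor_fst, dl_add]
  · rw [Prod.snd_add, Pi.add_apply]
    by_cases hv : v ∈ S.good
    · rw [tor_snd_good hv, tor_snd_good hv, tor_snd_good hv, add_zero]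
    · rw [tor_snd_bad hv, tor_snd_bad hv, tor_snd_bad hv]

theorem tor_zero : tor S chi (0 : V) = 0 := by
  have := tor_add (S := S) (chi := chi) (0 : V) 0
  rw [add_zero] at this
  exact left_eq_add.mp this

/-- The torsion elements as a homomorphism. -/
noncomputable def torHom (S : Sys G V V1 Pl) (chi : G → ZMod 2) : V →+ (G → V) × (Pl → V) where
  toFun := tor S chi
  map_zero' := tor_zero
  map_add' := tor_add

theorem tor_neg (z : V) : tor S chi (-z) = -tor S chi z := map_neg (torHom S chi) z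

theorem tor_sub (z z' : V) : tor S chi (z - z') = tor S chi z - tor S chi z' :=
  map_sub (torHom S chi) z z'

theorem tor_nsmul (n : ℕ) (z : V) : tor S chi (n • z) = n • tor S chi z :=
  map_nsmul (torHom S chi) n z

theorem tor_zsmul (n : ℤ) (z : V) : tor S chi (n • z) = n • tor S chi z :=
  map_zsmul (torHom S chi) n z

theorem isPr_tor' (h : S.Ok) (hchi : S.HomG chi) {z : V}
    (hz : ∀ s, (2 : ℕ) ^ i • dl chi z s = 0) : IsPr S chi i (tor S chi z) where
  sel := isSel_dl h hchi hz
  loc := fun v hv s _ => by rw [tor_snd_bad hv]; rfl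
  off := fun v hv => tor_snd_good hv z

theorem isPr_tor (h : S.Ok) (hchi : S.HomG chi) {z : V} (hz : (2 : ℕ) ^ i • z = 0) :
    IsPr S chi i (tor S chi z) :=
  isPr_tor' h hchi fun s => by rw [← dl_nsmul, hz, dl_zero]

/-! ### the relaxed and the strict Selmer group -/

theorem IsRel.add (h : S.Ok) {b b' : G → V1} (hb : IsRel S chi b) (hb' : IsRel S chi b') :
    IsRel S chi (b + b') :=
  ⟨hb.1.add h hb'.1, fun v hv => (S.W chi v).add_mem (hb.2 v hv) (hb'.2 v hv)⟩

theorem IsRel.zero (h : S.Ok) (chi : G → ZMod 2) : IsRel S chi (0 : G → V1) :=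
  ⟨CocG.zero h, fun v _ => (S.W chi v).zero_mem⟩

theorem cob_add (v : Pl) (z z' : V1) : S.cob v (z + z') = S.cob v z + S.cob v z' := by
  refine Prod.ext ?_ ?_
  · simp only [Sys.cob, Prod.fst_add, map_add]
    abel
  · simp only [Sys.cob, Prod.snd_add, map_add]
    abel

/-- The coboundaries at `v` as a homomorphism. -/
def cobHom (S : Sys G V V1 Pl) (v : Pl) : V1 →+ V1 × V1 := AddMonoidHom.mk' (S.cob v) (cob_add v)

theorem cobHom_apply (v : Pl) (z : V1) : cobHom S v z = S.cob v z := rfl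

theorem cob_zero (v : Pl) : S.cob v 0 = 0 := map_zero (cobHom S v)

theorem cob_sub (v : Pl) (z z' : V1) : S.cob v (z - z') = S.cob v z - S.cob v z' :=
  map_sub (cobHom S v) z z'

theorem IsStr.add (h : S.Ok) {b b' : G → V1} (hb : IsStr S chi b) (hb' : IsStr S chi b') :
    IsStr S chi (b + b') :=
  ⟨hb.1.add h hb'.1, fun v hv => by
    obtain ⟨z, hz⟩ := hb.2 v hv
    obtain ⟨z', hz'⟩ := hb'.2 v hv
    exact ⟨z + z', by rw [loc_add, hz, hz', cob_add]⟩⟩

theorem IsStr.zero (h : S.Ok) (chi : G → ZMod 2) : IsStr S chi (0 : G → V1) :=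
  ⟨IsSel1.zero h chi, fun v _ => ⟨0, (cob_zero v).symm⟩⟩

omit [Group G] in
theorem fun_neg (b : G → V1) : -b = b := funext fun _ => V1_neg _

theorem isRel_of_isSel1 {b : G → V1} (hb : S.IsSel1 chi b) : IsRel S chi b :=
  ⟨hb.1, fun v _ => hb.2 v⟩

theorem IsStr.isRel {b : G → V1} (hb : IsStr S chi b) : IsRel S chi b := isRel_of_isSel1 hb.1

/-- A relaxed Selmer element which is locally a coboundary of `V1` at the bad places is in the strict
Selmer group. -/
theorem isStr_of_isRel (h : S.Ok) {b : G → V1} (hb : IsRel S chi b)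
    (h0 : ∀ v, v ∉ S.good → ∃ z, S.loc v b = S.cob v z) : IsStr S chi b :=
  ⟨⟨hb.1, fun v => by
    by_cases hv : v ∈ S.good
    · exact hb.2 v hv
    · obtain ⟨z, hz⟩ := h0 v hv
      rw [hz]
      exact cob_mem_Wl h chi v z⟩, h0⟩

/-- The relaxed Selmer group. -/
def Rel (S : Sys G V V1 Pl) (h : S.Ok) (chi : G → ZMod 2) : AddSubgroup (G → V1) where
  carrier := {b | IsRel S chi b}
  zero_mem' := IsRel.zero h chi
  add_mem' := fun hb hb' => IsRel.add h hb hb'
  neg_mem' := fun {b} hb => by rw [fun_neg]; exact hb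

theorem mem_Rel {h : S.Ok} {b : G → V1} : b ∈ Rel S h chi ↔ IsRel S chi b := Iff.rfl

/-- The strict Selmer group. -/
def Str (S : Sys G V V1 Pl) (h : S.Ok) (chi : G → ZMod 2) : AddSubgroup (G → V1) where
  carrier := {b | IsStr S chi b}
  zero_mem' := IsStr.zero h chi
  add_mem' := fun hb hb' => IsStr.add h hb hb'
  neg_mem' := fun {b} hb => by rw [fun_neg]; exact hb

theorem mem_Str {h : S.Ok} {b : G → V1} : b ∈ Str S h chi ↔ IsStr S chi b := Iff.rfl

/-- A cocycle with values in `V1` is a twisted cocycle with values in `V`. -/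
theorem cocD_iota (h : S.Ok) {b : G → V1} (hb : S.CocG b) (chi : G → ZMod 2) (v : Pl) :
    S.CocD chi v (fun s => S.iota (b s)) :=
  ⟨(hb.1.comp _).on _, fun s _ t _ => by rw [hb.2, map_add, tw_iota h]⟩

/-- A cocycle which is a coboundary at `sg v` and `phi v` is a coboundary on `D v`. -/
theorem cocG_cob_D (h : S.Ok) (hchi : S.HomG chi) {b : G → V1} (hb : S.CocG b) {v : Pl} {z : V1}
    (h0 : S.loc v b = S.cob v z) : ∀ s ∈ S.D v, S.iota (b s) = dl chi (S.iota z) s := by
  refine cocD_ext h hchi v (cocD_iota h hb chi v) (dl_cocD h hchi _ v) ?_ ?_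
  · rw [dl_iota h]
    exact congrArg (fun x => S.iota x.1) h0
  · rw [dl_iota h]
    exact congrArg (fun x => S.iota x.2) h0

/-! ### the kernel of doubling -/

/-- The element `(iota b, iota w)`. -/
def prB (S : Sys G V V1 Pl) (b : G → V1) (w : Pl → V1) : (G → V) × (Pl → V) :=
  (fun s => S.iota (b s), fun v => S.iota (w v))

theorem prB_add (b b' : G → V1) (w w' : Pl → V1) :
    prB S (b + b') (w + w') = prB S b w + prB S b' w' :=
  Prod.ext (funext fun _ => map_add _ _ _) (funext fun _ => map_add _ _ _)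

theorem two_prB (b : G → V1) (w : Pl → V1) : (2 : ℕ) • prB S b w = 0 :=
  Prod.ext (funext fun _ => two_iota S _) (funext fun _ => two_iota S _)

theorem prB_inj (h : S.Ok) {b b' : G → V1} {w w' : Pl → V1} (he : prB S b w = prB S b' w') :
    b = b' ∧ w = w' :=
  ⟨funext fun s => h.iota_inj (congrFun (congrArg Prod.fst he) s),
    funext fun v => h.iota_inj (congrFun (congrArg Prod.snd he) v)⟩

/-- The elements `(iota b, iota w)` of level `i + 1`. -/
theorem isPr_prB_iff (h : S.Ok) (hchi : S.HomG chi) {b : G → V1} {w : Pl → V1} :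
    IsPr S chi (i + 1) (prB S b w) ↔ S.IsSel1 chi b ∧
      (∀ v, v ∉ S.good → S.loc v b = S.cob v (w v)) ∧ ∀ v ∈ S.good, w v = 0 := by
  constructor
  · intro hy
    have h1 : S.IsSel chi 1 (fun s => S.iota (b s)) :=
      hy.sel.of_lev fun s => by rw [pow_one]; exact two_iota S _
    refine ⟨isSel1_of h h1, fun v hv => ?_, fun v hv => h.iota_inj ?_⟩
    · have h2 : ∀ s ∈ S.D v, b s = S.ac s (w v) - w v := fun s hs => h.iota_inj (by
        rw [← dl_iota h chi]
        exact hy.loc v hv s hs)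
      exact Prod.ext (h2 _ (h.sg_mem v)) (h2 _ (h.phi_mem v))
    · rw [map_zero]
      exact hy.off v hv
  · rintro ⟨hb, hl, hw⟩
    refine ⟨(isSel_iota h hchi hb).mono (by omega), fun v hv s hs => ?_, fun v hv => ?_⟩
    · exact cocG_cob_D h hchi hb.1 (hl v hv) s hs
    · change S.iota (w v) = 0
      rw [hw v hv, map_zero]

/-- The elements of the kernel of doubling. -/
theorem exists_prB (h : S.Ok) (h2 : (2 : ℕ) • y = 0) : ∃ b w, y = prB S b w := by
  have h3 : ∀ s, (2 : ℕ) • y.1 s = 0 := fun s => congrFun (congrArg Prod.fst h2) s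
  have h4 : ∀ v, (2 : ℕ) • y.2 v = 0 := fun v => congrFun (congrArg Prod.snd h2) v
  exact ⟨fun s => S.un (y.1 s), fun v => S.un (y.2 v),
    Prod.ext (funext fun s => (iota_un h (h3 s)).symm) (funext fun v => (iota_un h (h4 v)).symm)⟩

/-- The local solutions over an element of the strict Selmer group. -/
abbrev LocSol (S : Sys G V V1 Pl) (b : G → V1) : Type _ :=
  ∀ v : {v : Pl // v ∉ S.good}, {z : V1 // S.cob v.1 z = S.loc v.1 b}

open Classical in
/-- The kernel of doubling. -/
noncomputable def kerEquiv (h : S.Ok) (hchi : S.HomG chi) (i : ℕ) :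
    {y : (G → V) × (Pl → V) // IsPr S chi (i + 1) y ∧ (2 : ℕ) • y = 0} ≃
      Σ b : {b : G → V1 // IsStr S chi b}, LocSol S b.1 where
  toFun y := ⟨⟨fun s => S.un (y.1.1 s), by
      obtain ⟨b, w, hbw⟩ := exists_prB (S := S) h y.2.2
      have h1 := y.2.1
      rw [hbw] at h1
      have h2 : (fun s => S.un (y.1.1 s)) = b := funext fun s => by
        rw [hbw]; exact un_iota h _
      rw [h2]
      have h3 := (isPr_prB_iff h hchi).1 h1
      exact ⟨h3.1, fun v hv => ⟨w v, h3.2.1 v hv⟩⟩⟩, fun v => ⟨S.un (y.1.2 v.1), by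
      obtain ⟨b, w, hbw⟩ := exists_prB (S := S) h y.2.2
      have h1 := y.2.1
      rw [hbw] at h1
      have h2 : (fun s => S.un (y.1.1 s)) = b := funext fun s => by
        rw [hbw]; exact un_iota h _
      have h4 : S.un (y.1.2 v.1) = w v.1 := by rw [hbw]; exact un_iota h _
      change S.cob v.1 (S.un (y.1.2 v.1)) = S.loc v.1 (fun s => S.un (y.1.1 s))
      rw [h2, h4]
      exact (((isPr_prB_iff h hchi).1 h1).2.1 v.1 v.2).symm⟩⟩
  invFun p := ⟨prB S p.1.1 (fun v => if hv : v ∉ S.good then (p.2 ⟨v, hv⟩).1 else 0),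
    (isPr_prB_iff h hchi).2 ⟨p.1.2.1, fun v hv => by
      rw [dif_pos hv]
      exact (p.2 ⟨v, hv⟩).2.symm, fun v hv => dif_neg (not_not.2 hv)⟩, two_prB _ _⟩
  left_inv y := by
    obtain ⟨⟨a, c⟩, h1, h2⟩ := y
    obtain ⟨b, w, hbw⟩ := exists_prB (S := S) h h2
    have ha : a = fun s => S.iota (b s) := congrArg Prod.fst hbw
    have hc : c = fun v => S.iota (w v) := congrArg Prod.snd hbw
    subst ha hc
    have hw := ((isPr_prB_iff h hchi).1 h1).2.2
    refine Subtype.ext (Prod.ext (funext fun s => ?_) (funext fun v => ?_))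
    · change S.iota (S.un (S.iota (b s))) = S.iota (b s)
      rw [un_iota h]
    · change S.iota (if hv : v ∉ S.good then S.un (S.iota (w v)) else 0) = S.iota (w v)
      by_cases hv : v ∈ S.good
      · rw [dif_neg (not_not.2 hv), hw v hv]
      · rw [dif_pos hv, un_iota h]
  right_inv p := by
    obtain ⟨⟨b, hb⟩, w⟩ := p
    have e : (fun s => S.un (S.iota (b s))) = b := funext fun s => un_iota h _
    refine Sigma.ext (Subtype.ext e) ?_
    refine Function.hfunext rfl fun v v' hv => ?_
    obtain rfl := eq_of_heq hv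
    refine (Subtype.heq_iff_coe_eq fun z => ?_).2 ?_
    · change S.cob v.1 z = S.loc v.1 (fun s => S.un (S.iota (b s))) ↔ _
      rw [e]
    · change S.un (S.iota (if hv : v.1 ∉ S.good then (w ⟨v.1, hv⟩).1 else 0)) = (w v).1
      rw [dif_pos v.2, un_iota h]

theorem finite_bad (h : S.Ok) : Finite {v : Pl // v ∉ S.good} := h.good_fin

/-- The product of the orders of `V1 ^ (D v)` over the bad places. -/
noncomputable def fixN (S : Sys G V V1 Pl) : ℕ :=
  ∏ᶠ v : {v : Pl // v ∉ S.good}, Nat.card {z : V1 // S.cob v.1 z = 0}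

theorem card_locSol (h : S.Ok) {b : G → V1} (hb : IsStr S chi b) :
    Nat.card (LocSol S b) = fixN S := by
  have := finite_bad h
  have := Fintype.ofFinite {v : Pl // v ∉ S.good}
  have := h.fin1
  choose w0 hw0 using hb.2
  rw [fixN, finprod_eq_prod_of_fintype, Nat.card_pi]
  refine Finset.prod_congr rfl fun v _ => Nat.card_congr
    { toFun := fun z => ⟨z.1 - w0 v.1 v.2, by rw [cob_sub, z.2, ← hw0 v.1 v.2, sub_self]⟩
      invFun := fun z => ⟨z.1 + w0 v.1 v.2, by rw [cob_add, z.2, zero_add, ← hw0 v.1 v.2]⟩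
      left_inv := fun z => Subtype.ext (sub_add_cancel _ _)
      right_inv := fun z => Subtype.ext (add_sub_cancel_right _ _) }

theorem card_ker (h : S.Ok) (hchi : S.HomG chi) (hf : Finite {b : G → V1 // IsStr S chi b})
    (i : ℕ) :
    Nat.card {y : (G → V) × (Pl → V) // IsPr S chi (i + 1) y ∧ (2 : ℕ) • y = 0} =
      Nat.card {b : G → V1 // IsStr S chi b} * fixN S := by
  have := finite_bad h
  have := h.fin1
  have := Fintype.ofFinite {b : G → V1 // IsStr S chi b}
  rw [Nat.card_congr (kerEquiv h hchi i), Nat.card_sigma,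
    Finset.sum_congr rfl fun b _ => card_locSol h b.2, Finset.sum_const, Finset.card_univ,
    Nat.card_eq_fintype_card, smul_eq_mul]

/-! ### finiteness -/

theorem finite_isSel1 (hf : Finite {b : G → V1 // IsRel S chi b}) :
    Finite {b : G → V1 // S.IsSel1 chi b} :=
  Finite.of_injective (fun b => (⟨b.1, isRel_of_isSel1 b.2⟩ : {b : G → V1 // IsRel S chi b}))
    fun _ _ he => Subtype.ext (congrArg (fun x => x.1) he)

theorem finite_isStr (hf : Finite {b : G → V1 // IsRel S chi b}) :
    Finite {b : G → V1 // IsStr S chi b} :=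
  Finite.of_injective (fun b => (⟨b.1, b.2.isRel⟩ : {b : G → V1 // IsRel S chi b}))
    fun _ _ he => Subtype.ext (congrArg (fun x => x.1) he)

theorem finite_ker (h : S.Ok) (hchi : S.HomG chi) (hf : Finite {b : G → V1 // IsRel S chi b})
    (i : ℕ) : Finite {y : (G → V) × (Pl → V) // IsPr S chi (i + 1) y ∧ (2 : ℕ) • y = 0} := by
  have := finite_bad h
  have := h.fin1
  have := finite_isStr hf
  exact Finite.of_equiv _ (kerEquiv h hchi i).symm

theorem finite_isPr_zero (h : S.Ok) (hchi : S.HomG chi) :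
    Finite {y : (G → V) × (Pl → V) // IsPr S chi 0 y} := by
  have := finite_bad h
  have hfi : ∀ v : {v : Pl // v ∉ S.good},
      Finite {Q : V | ∀ s ∈ S.D v.1, dl chi Q s = 0} := fun v => h.fin_inv chi hchi v.1
  refine Finite.of_injective (β := ∀ v : {v : Pl // v ∉ S.good},
    {Q : V | ∀ s ∈ S.D v.1, dl chi Q s = 0}) (fun y v => ⟨y.1.2 v.1, fun s hs => ?_⟩) ?_
  · have h1 := y.2.loc v.1 v.2 s hs
    rw [← h1, isSel_zero_iff y.2.sel]
    rfl
  · intro y y' he
    refine Subtype.ext (Prod.ext ?_ (funext fun v => ?_))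
    · rw [isSel_zero_iff y.2.sel, isSel_zero_iff y'.2.sel]
    · by_cases hv : v ∈ S.good
      · rw [y.2.off v hv, y'.2.off v hv]
      · exact congrArg (fun x => x.1) (congrFun he ⟨v, hv⟩)

/-- The groups of rigid Selmer elements are finite. -/
theorem finite_isPr (h : S.Ok) (hchi : S.HomG chi) (hf : Finite {b : G → V1 // IsRel S chi b})
    (i : ℕ) : Finite {y : (G → V) × (Pl → V) // IsPr S chi i y} := by
  induction i with
  | zero => exact finite_isPr_zero h hchi
  | succ i ih =>
    have h1 : {y : (G → V) × (Pl → V) | IsPr S chi (i + 1) y}.Finite := by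
      refine Set.Finite.of_finite_fibers (fun y => (2 : ℕ) • y) ?_ ?_
      · have : {y : (G → V) × (Pl → V) | IsPr S chi i y}.Finite := ih
        refine this.subset ?_
        rintro _ ⟨y, hy, rfl⟩
        exact IsPr.two hy
      · rintro _ ⟨y, hy, rfl⟩
        have hk : {y : (G → V) × (Pl → V) | IsPr S chi (i + 1) y ∧ (2 : ℕ) • y = 0}.Finite :=
          finite_ker h hchi hf i
        refine (hk.image (fun k => y + k)).subset ?_
        rintro x ⟨hx, hxy⟩
        refine ⟨x - y, ⟨IsPr.sub h hx hy, ?_⟩, add_sub_cancel y x⟩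
        have : (2 : ℕ) • x = (2 : ℕ) • y := hxy
        rw [smul_sub, this, sub_self]
    exact h1

theorem finite_RS (h : S.Ok) (hchi : S.HomG chi) (hf : Finite {b : G → V1 // IsRel S chi b})
    (i : ℕ) : Finite (RS S h chi i) := finite_isPr h hchi hf i

/-- Doubling is a homomorphism from level `i + 1` to level `i`. -/
def dbl (S : Sys G V V1 Pl) (h : S.Ok) (chi : G → ZMod 2) (i : ℕ) :
    RS S h chi (i + 1) →+ RS S h chi i where
  toFun y := ⟨(2 : ℕ) • y.1, y.2.two⟩
  map_zero' := Subtype.ext (smul_zero _)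
  map_add' _ _ := Subtype.ext (smul_add _ _ _)

theorem dbl_coe (h : S.Ok) (y : RS S h chi (i + 1)) : ((dbl S h chi i y : RS S h chi i) :
    (G → V) × (Pl → V)) = (2 : ℕ) • (y : (G → V) × (Pl → V)) := rfl

end Pool.Agent.SmNH
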