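import Pool.Agent.Lib.SmNH.G.Pr
import Pool.Agent.Lib.SmNH.H.TopR

/-!
# HEIGHTS over SMITH-U, block G_h, module CTrAdd: additivity of the rigid Cassels-Tate pairing
-/

set_option autoImplicit false

namespace Pool.Agent.SmNH

open Pool.Agent.SmN Pool.Agent.SmN.Sys

variable {G V V1 Pl : Type*} [Group G] [AddCommGroup V] [DistribMulAction G V]
  [AddCommGroup V1] [Module (ZMod 2) V1]
variable {S : Sys G V V1 Pl} {chi : G → ZMod 2} {i j : ℕ} {y y' : (G → V) × (Pl → V)}

private theorem CTrAdd_exists_rlift (h : S.Ok) (hchi : S.HomG chi) (hy : IsPr S chi i y) :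
    ∃ hat Q, RLift S chi y hat Q := by
  obtain ⟨hf, hhf⟩ := Sys.exists_hf h
  obtain ⟨hat, Q, h1, _⟩ := exists_rlift h hchi hy (fun v => hf (y.2 v)) fun v _ => hhf _
  exact ⟨hat, Q, h1⟩

theorem RLift.add (h : S.Ok) {hat hat' : G → V} {Q Q' : Pl → V} (hd : RLift S chi y hat Q)
    (hd' : RLift S chi y' hat' Q') : RLift S chi (y + y') (hat + hat') (Q + Q') :=
  ⟨hd.1.add h hd'.1, fun v hv => by
    rw [Pi.add_apply, smul_add, hd.2 v hv, hd'.2 v hv, Prod.snd_add, Pi.add_apply]⟩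

theorem CTr_add_left (h : S.Ok) (hchi : S.HomG chi) (hy : IsPr S chi i y)
    (hy' : IsPr S chi j y') {b : G → V1} (hb : IsRel S chi b) :
    CTr S chi (y + y') b = CTr S chi y b + CTr S chi y' b := by
  obtain ⟨hat, Q, hd⟩ := CTrAdd_exists_rlift h hchi hy
  obtain ⟨hat', Q', hd'⟩ := CTrAdd_exists_rlift h hchi hy'
  rw [CTr_of_rlift h hchi hd hb, CTr_of_rlift h hchi hd' hb,
    CTr_of_rlift h hchi (hd.add h hd') hb,
    ← finsum_add_distrib (hd.1.supp h hchi hb.1) (hd'.1.supp h hchi hb.1)]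
  exact finsum_congr fun v => by rw [hd.1.xi_add h hd'.1, sy_add_left]

theorem CTr_add_right (h : S.Ok) (hchi : S.HomG chi) (hy : IsPr S chi i y) {b b' : G → V1}
    (hb : IsRel S chi b) (hb' : IsRel S chi b') :
    CTr S chi y (b + b') = CTr S chi y b + CTr S chi y b' := by
  obtain ⟨hat, Q, hd⟩ := CTrAdd_exists_rlift h hchi hy
  rw [CTr_of_rlift h hchi hd hb, CTr_of_rlift h hchi hd hb', CTr_of_rlift h hchi hd (hb.add h hb'),
    ← finsum_add_distrib (hd.1.supp h hchi hb.1) (hd.1.supp h hchi hb'.1)]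
  exact finsum_congr fun v => by rw [loc_add, sy_add_right]

theorem CTr_zero_left (h : S.Ok) (hchi : S.HomG chi) {b : G → V1} (hb : IsRel S chi b) :
    CTr S chi (0 : (G → V) × (Pl → V)) b = 0 := by
  have := CTr_add_left (i := 0) (j := 0) h hchi (IsPr.zero h chi 0) (IsPr.zero h chi 0) hb
  rw [add_zero] at this
  exact left_eq_add.mp this

theorem CTr_zero_right (h : S.Ok) (hchi : S.HomG chi) (hy : IsPr S chi i y) :
    CTr S chi y 0 = 0 := by
  have := CTr_add_right h hchi hy (IsRel.zero h chi) (IsRel.zero h chi)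
  rw [add_zero] at this
  exact left_eq_add.mp this

/-- The pairing with a fixed relaxed Selmer element as a homomorphism. -/
noncomputable def ctrL (h : S.Ok) (hchi : S.HomG chi) (i : ℕ) {b : G → V1}
    (hb : IsRel S chi b) : RS S h chi i →+ ZMod 2 :=
  AddMonoidHom.mk' (fun y => CTr S chi y.1 b) fun y y' => CTr_add_left h hchi y.2 y'.2 hb

/-- The pairing with a fixed rigid Selmer element as a homomorphism. -/
noncomputable def ctrR (h : S.Ok) (hchi : S.HomG chi) (hy : IsPr S chi i y) :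
    Rel S h chi →+ ZMod 2 :=
  AddMonoidHom.mk' (fun b => CTr S chi y b.1) fun b b' => CTr_add_right h hchi hy b.2 b'.2

theorem ctrL_apply (h : S.Ok) (hchi : S.HomG chi) {b : G → V1} (hb : IsRel S chi b)
    (y : RS S h chi i) : ctrL h hchi i hb y = CTr S chi y.1 b := rfl

theorem ctrR_apply (h : S.Ok) (hchi : S.HomG chi) (hy : IsPr S chi i y) (b : Rel S h chi) :
    ctrR h hchi hy b = CTr S chi y b.1 := rfl

theorem CTr_neg_left (h : S.Ok) (hchi : S.HomG chi) (hy : IsPr S chi i y) {b : G → V1}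
    (hb : IsRel S chi b) : CTr S chi (-y) b = CTr S chi y b := by
  have h1 := CTr_add_left h hchi hy hy.neg hb
  rw [add_neg_cancel, CTr_zero_left h hchi hb] at h1
  have h2 : ∀ a c : ZMod 2, 0 = a + c → c = a := by decide
  exact h2 _ _ h1

theorem CTr_sub_left (h : S.Ok) (hchi : S.HomG chi) (hy : IsPr S chi i y)
    (hy' : IsPr S chi j y') {b : G → V1} (hb : IsRel S chi b) :
    CTr S chi (y - y') b = CTr S chi y b + CTr S chi y' b := by
  rw [sub_eq_add_neg, CTr_add_left h hchi hy hy'.neg hb, CTr_neg_left h hchi hy' hb]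

theorem CTr_nsmul_left (h : S.Ok) (hchi : S.HomG chi) (hy : IsPr S chi i y) (n : ℕ)
    {b : G → V1} (hb : IsRel S chi b) : CTr S chi (n • y) b = (n : ZMod 2) * CTr S chi y b := by
  have h1 := map_nsmul (ctrL h hchi i hb) n (⟨y, hy⟩ : RS S h chi i)
  rw [ctrL_apply, ctrL_apply, nsmul_eq_mul] at h1
  exact h1

theorem CTr_zsmul_left (h : S.Ok) (hchi : S.HomG chi) (hy : IsPr S chi i y) (n : ℤ)
    {b : G → V1} (hb : IsRel S chi b) : CTr S chi (n • y) b = (n : ZMod 2) * CTr S chi y b := by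
  have h1 := map_zsmul (ctrL h hchi i hb) n (⟨y, hy⟩ : RS S h chi i)
  rw [ctrL_apply, ctrL_apply, zsmul_eq_mul] at h1
  exact h1

theorem CTr_sum_left (h : S.Ok) (hchi : S.HomG chi) {ι : Type*} (s : Finset ι)
    {f : ι → (G → V) × (Pl → V)} (hf : ∀ l ∈ s, IsPr S chi i (f l)) {b : G → V1}
    (hb : IsRel S chi b) : CTr S chi (∑ l ∈ s, f l) b = ∑ l ∈ s, CTr S chi (f l) b := by
  classical
  have key : ∀ t : Finset ι, t ⊆ s → IsPr S chi i (∑ l ∈ t, f l) ∧
      CTr S chi (∑ l ∈ t, f l) b = ∑ l ∈ t, CTr S chi (f l) b := by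
    intro t
    induction t using Finset.induction_on with
    | empty =>
      intro _
      rw [Finset.sum_empty, Finset.sum_empty]
      exact ⟨IsPr.zero h chi i, CTr_zero_left h hchi hb⟩
    | insert a t ha ih =>
      intro hs
      obtain ⟨h1, h2⟩ := ih fun x hx => hs (Finset.mem_insert_of_mem hx)
      have h3 := hf a (hs (Finset.mem_insert_self a t))
      rw [Finset.sum_insert ha, Finset.sum_insert ha]
      exact ⟨h3.add h h1, by rw [CTr_add_left h hchi h3 h1 hb, h2]⟩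
  exact (key s subset_rfl).2

/-- The pairing vanishes on doubles of rigid Selmer elements. -/
theorem CTr_of_two (h : S.Ok) (hchi : S.HomG chi) (hy : IsPr S chi j y') 
    (h2 : (2 : ℕ) • y' = y) {b : G → V1} (hb : IsRel S chi b) : CTr S chi y b = 0 := by
  choose Q hQ using hy.sel.loc
  classical
  have hQ' : ∃ Q : Pl → V, (∀ v, ∀ s ∈ S.D v, y'.1 s = dl chi (Q v) s) ∧
      ∀ v, v ∉ S.good → Q v = y'.2 v := by
    refine ⟨fun v => if v ∈ S.good then Q v else y'.2 v, fun v s hs => ?_, fun v hv => ?_⟩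
    · by_cases hv : v ∈ S.good
      · simp only [if_pos hv]
        exact hQ v s hs
      · simp only [if_neg hv]
        exact hy.loc v hv s hs
    · simp only [if_neg hv]
  obtain ⟨Q, hQ, hQ2⟩ := hQ'
  subst h2
  have hd : RLift S chi ((2 : ℕ) • y') y'.1 Q :=
    ⟨⟨hy.sel.tf, hy.sel.coc, fun s => rfl, fun v s hs => by rw [← hQ v s hs]; rfl⟩,
      fun v hv => by rw [hQ2 v hv]; rfl⟩
  rw [CTr_of_rlift h hchi hd hb]
  have : ∀ v, S.sy v (S.xi chi y'.1 Q v) (S.loc v b) = 0 := fun v => by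
    have hx : S.xi chi y'.1 Q v = 0 := by
      refine Prod.ext (h.iota_inj ?_) (h.iota_inj ?_)
      · rw [hd.1.iota_xi1 h, hQ v _ (h.sg_mem v), sub_self]; exact (map_zero _).symm
      · rw [hd.1.iota_xi2 h, hQ v _ (h.phi_mem v), sub_self]; exact (map_zero _).symm
    rw [hx, sy_zero_left]
  rw [finsum_congr this, finsum_zero]

theorem CTr_two (h : S.Ok) (hchi : S.HomG chi) (hy : IsPr S chi j y) {b : G → V1}
    (hb : IsRel S chi b) : CTr S chi ((2 : ℕ) • y) b = 0 := CTr_of_two h hchi hy rfl hb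

/-- The pairing vanishes on torsion elements. -/
theorem CTr_tor (h : S.Ok) (hchi : S.HomG chi) (z : V) {b : G → V1} (hb : IsRel S chi b) :
    CTr S chi (tor S chi z) b = 0 := by
  obtain ⟨x, hx⟩ := h.half z
  obtain ⟨m, hm⟩ := h.tors x
  refine CTr_of_two (j := m) (y' := tor S chi x) h hchi (isPr_tor h hchi hm) ?_ hb
  rw [← tor_nsmul, hx]

/-- The pairing does not change if a torsion element is added. -/
theorem CTr_add_tor (h : S.Ok) (hchi : S.HomG chi) (hy : IsPr S chi i y) (z : V) {b : G → V1}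
    (hb : IsRel S chi b) : CTr S chi (y + tor S chi z) b = CTr S chi y b := by
  obtain ⟨m, hm⟩ := h.tors z
  have ht : IsPr S chi m (tor S chi z) := isPr_tor h hchi hm
  rw [CTr_add_left h hchi hy ht hb, CTr_tor h hchi z hb, add_zero]

end Pool.Agent.SmNH
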