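import Pool.Agent.Lib.SmNH.H.TopR
import Pool.Agent.Lib.SmNH.Q.Main
import Pool.Agent.Lib.SmN.G.ConjOk

/-!
# SmNH: change of the places above the good places

`S.conj g` with `g v = 1` at the bad places: rigid Selmer elements, the relaxed Selmer group, the
rigid pairing and the height form (with the normalisation `nm v` composed with `(g v)⁻¹`) do not
change.
-/

set_option autoImplicit false

namespace Pool.Agent.SmNH

open Pool.Agent.SmN Pool.Agent.SmN.Sys

variable {G V V1 Pl M : Type*} [Group G] [AddCommGroup V] [DistribMulAction G V]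
  [AddCommGroup V1] [Module (ZMod 2) V1] [AddCommGroup M] [DistribMulAction G M]

/-- The normalisations for the conjugated system. -/
def HData.conj (H : HData V M Pl) (g : Pl → G) : HData V M Pl where
  e := H.e
  j := H.j
  deg := H.deg
  nm v := (H.nm v).comp (DistribSMul.toAddMonoidHom M (g v)⁻¹)

variable {S : Sys G V V1 Pl} {H : HData V M Pl} {g : Pl → G} {chi : G → ZMod 2} {i : ℕ}

theorem HData.conj_nm (v : Pl) (m : M) : (H.conj g).nm v m = H.nm v ((g v)⁻¹ • m) := rfl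

/-- The conjugate of an element which acts trivially on `M` acts trivially. -/
theorem conj_triv {a s : G} (hs : ∀ m : M, s • m = m) (m : M) : (a * s * a⁻¹) • m = m := by
  rw [mul_smul, mul_smul, hs, smul_inv_smul]

/-- A cocycle with values in `M` at the conjugate of an element which acts trivially. -/
theorem cocM_conj {h : G → M} (hc : ∀ s t, h (s * t) = h s + s • h t) {a s : G}
    (hs : ∀ m : M, s • m = m) : h (a * s * a⁻¹) = a • h s := by
  have h1 : h 1 = 0 := by
    have := hc 1 1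
    rw [mul_one, one_smul] at this
    exact left_eq_add.mp this
  have h2 : h a⁻¹ = -(a⁻¹ • h a) := by
    have := hc a⁻¹ a
    rw [inv_mul_cancel, h1] at this
    exact eq_neg_of_add_eq_zero_left this.symm
  rw [hc, hc, h2, smul_neg, ← mul_smul, conj_triv hs]
  abel

/-- A cochain `rho` which splits the cup square, at the conjugate of a tame generator of a good
place. -/
theorem rho_conj (h : S.Ok) (hH : HOk S H) (hchi : S.HomG chi) {Psi : G → V}
    (hP : S.IsSel chi i Psi) {rho : G → M} (hr : IsRho S H chi i Psi rho) {v : Pl}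
    (hv : v ∈ S.good) (a : G) : rho (a * S.sg v * a⁻¹) = a • rho (S.sg v) := by
  have hw := hH.weil
  set τ := S.sg v with hτ
  have hd := hr.2
  have h1 : rho 1 = 0 := (hr.nc hH hchi hP).one
  have hPa : Psi 1 = 0 := coc_one hchi.2 hP.coc
  -- `a * Psi a⁻¹ = -Psi a`
  have e0 : tw chi a (Psi a⁻¹) = -Psi a := by
    have := hP.coc a a⁻¹
    rw [mul_inv_cancel, hPa] at this
    exact eq_neg_of_add_eq_zero_right this.symm
  have hlP := hP.lev a
  set R := tw chi a (Psi τ) with hR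
  have hlR : (2 : ℕ) ^ i • R = 0 := pow_smul_tw chi a (hP.lev τ)
  have d1 := hd a τ
  have d2 := hd (a * τ) a⁻¹
  have d3 := hd a a⁻¹
  have hact : (a * τ) • rho a⁻¹ = a • rho a⁻¹ := by rw [mul_smul, hH.sgM v]
  rw [mul_inv_cancel, h1, e0, hw.neg_right hlP hlP, hw.alt i _ hlP, neg_zero, sub_zero] at d3
  rw [hact, hP.coc a τ] at d2
  -- the twist of `Psi a⁻¹` by `a τ`
  have hconj : (a * τ) = (a * τ * a⁻¹) * a := by group
  have e2 : tw chi (a * τ) (Psi a⁻¹) = -tw chi (a * τ * a⁻¹) (Psi a) := by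
    conv_lhs => rw [hconj]
    rw [tw_mul hchi.2, e0, tw_neg]
  have hcc : chi (a * τ * a⁻¹) = chi τ := by
    have h5 : chi a⁻¹ = -chi a := by
      have := hchi.2 a a⁻¹
      rw [mul_inv_cancel, chi_one hchi.2] at this
      exact eq_neg_of_add_eq_zero_right this.symm
    rw [hchi.2, hchi.2, h5]
    abel
  have htrivV : ∀ Q : V, (a * τ * a⁻¹) • Q = Q := fun Q => by
    rw [mul_smul, mul_smul, h.good_triv v hv, smul_inv_smul]
  have hzz : ∀ z : ZMod 2, z = 0 ∨ z = 1 := by decide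
  have key : H.e i (Psi a) R + H.e i (Psi a + R) (tw chi (a * τ) (Psi a⁻¹)) = 0 := by
    rcases hzz (chi τ) with h0 | h0
    · have hR0 : R = 0 := by
        obtain ⟨Q, hQ⟩ := hP.loc v
        rw [hR, hQ τ (h.sg_mem v), dl_sg_zero h hv h0, tw_zero]
      rw [hR0, hw.zero_right hlP, add_zero, zero_add, e2, tw_of_zero chi (hcc.trans h0), htrivV,
        hw.neg_right hlP hlP, hw.alt i _ hlP, neg_zero]
    · rw [e2, tw_of_one chi (hcc.trans h0), htrivV, neg_neg, hw.add_left i _ _ _ hlP hlR hlP,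
        hw.alt i _ hlP, zero_add, hw.anti hlP hlR, neg_add_cancel]
  change rho (a * τ * a⁻¹) = a • rho τ
  have k1 : rho (a * τ * a⁻¹) = rho (a * τ) + a • rho a⁻¹ -
      H.e i (Psi a + R) (tw chi (a * τ) (Psi a⁻¹)) := by
    rw [d2]
    abel
  have k2 : rho (a * τ) = rho a + a • rho τ - H.e i (Psi a) R := by
    rw [d1]
    abel
  rw [k1, k2]
  have k3 : rho a + a • rho τ - H.e i (Psi a) R + a • rho a⁻¹ -
      H.e i (Psi a + R) (tw chi (a * τ) (Psi a⁻¹)) =
      (rho a + a • rho a⁻¹) + a • rho τ -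
        (H.e i (Psi a) R + H.e i (Psi a + R) (tw chi (a * τ) (Psi a⁻¹))) := by abel
  rw [k3, ← d3, key, zero_add, sub_zero]

/-- Local triviality of a 2-cocycle with values in `M` at the conjugated place. -/
theorem cohM_conj (h : S.Ok) {c : G → G → M} (hTF : S.TF2 c)
    (hc : ∀ s t w, c s t + c (s * t) w = s • c t w + c s (t * w)) (v : Pl)
    (hl : (S.conj g).Coh ((S.conj g).D v) c (fun _ _ => 0)) :
    S.Coh (S.D v) c (fun _ _ => 0) := by
  obtain ⟨b, ⟨N, hN, hbN⟩, hb⟩ := hl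
  obtain ⟨N', hN', hcN⟩ := hTF
  set a := g v with ha
  set kk : G → M := fun s => c (a * s * a⁻¹) a - c a s with hkk
  have hk : ∀ s t, c (a * s * a⁻¹) (a * t * a⁻¹) - a • c s t =
      kk s + (a * s * a⁻¹) • kk t - kk (s * t) := by
    intro s t
    have e1 := hc (a * s * a⁻¹) (a * t * a⁻¹) a
    have e2 := hc (a * s * a⁻¹) a t
    have e3 := hc a s t
    have f1 : a * t * a⁻¹ * a = a * t := by group
    have f2 : a * s * a⁻¹ * a = a * s := by group
    have f3 : (a * s * a⁻¹) * (a * t * a⁻¹) = a * (s * t) * a⁻¹ := (Sys.conj_mul a s t).symm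
    rw [f1, f3] at e1
    rw [f2] at e2
    have k1 : c (a * s * a⁻¹) (a * t * a⁻¹) = (a * s * a⁻¹) • c (a * t * a⁻¹) a +
        c (a * s * a⁻¹) (a * t) - c (a * (s * t) * a⁻¹) a := by
      rw [← e1]; abel
    have k2 : c (a * s * a⁻¹) (a * t) = c (a * s * a⁻¹) a + c (a * s) t -
        (a * s * a⁻¹) • c a t := by
      rw [e2]; abel
    have k3 : c (a * s) t = a • c s t + c a (s * t) - c a s := by
      rw [← e3]; abel
    rw [hkk]
    beta_reduce
    rw [k1, k2, k3, smul_sub]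
    abel
  refine ⟨fun s => a⁻¹ • (b (a * s * a⁻¹) - kk s), ?_, fun s hs t ht => ?_⟩
  · refine ⟨N ⊓ N', h.inf_mem N hN N' hN', fun s hs n hn hnD => ?_⟩
    have e1 : b (a * (s * n) * a⁻¹) = b (a * s * a⁻¹) := by
      rw [Sys.conj_mul]
      exact hbN _ (conj_mem_D hs) _ ((h.normal N hN).conj_mem n hn.1 _) (conj_mem_D hnD)
    have e2 : c (a * (s * n) * a⁻¹) a = c (a * s * a⁻¹) a := by
      have := hcN (a * s * a⁻¹) a (a * n * a⁻¹) ((h.normal N' hN').conj_mem n hn.2 _) 1
        N'.one_mem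
      rwa [mul_one, ← Sys.conj_mul] at this
    have e3 : c a (s * n) = c a s := by
      have := hcN a s 1 N'.one_mem n hn.2
      rwa [mul_one] at this
    simp only [hkk, e1, e2, e3]
  · have e1 := hb _ (conj_mem_D hs) _ (conj_mem_D ht)
    beta_reduce at e1
    rw [zero_add] at e1
    have e2 := hk s t
    rw [e1, ← Sys.conj_mul] at e2
    have g1 : ∀ m : M, s • (a⁻¹ • m) = a⁻¹ • ((a * s * a⁻¹) • m) := fun m => by
      rw [← mul_smul, ← mul_smul]
      congr 1
      group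
    have e3 : a • c s t = (b (a * s * a⁻¹) - kk s) + (a * s * a⁻¹) • (b (a * t * a⁻¹) - kk t) -
        (b (a * (s * t) * a⁻¹) - kk (s * t)) := by
      rw [smul_sub]
      have e4 : a • c s t = (b (a * s * a⁻¹) + (a * s * a⁻¹) • b (a * t * a⁻¹) -
        b (a * (s * t) * a⁻¹)) - (kk s + (a * s * a⁻¹) • kk t - kk (s * t)) := by
        rw [← e2]; abel
      rw [e4]; abel
    beta_reduce
    rw [zero_add, g1, ← smul_add, ← smul_sub, ← e3, inv_smul_smul]

theorem HOk.conj (h : S.Ok) (hH : HOk S H) (g : Pl → G) : HOk (S.conj g) (H.conj g) where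
  weil := ⟨hH.weil.add_left, hH.weil.add_right, hH.weil.alt, hH.weil.comp, hH.weil.equiv,
    hH.weil.one, hH.weil.fix⟩
  inj := hH.inj
  two := hH.two
  tors := hH.tors
  half := hH.half
  act := hH.act
  sgM := fun v m => conj_triv (hH.sgM v) m
  nm_inj := fun v a b hab => by
    have h1 := hH.nm_inj v hab
    have h2 : (g v)⁻¹ • a = (g v)⁻¹ • b := h1
    have h3 := congrArg (fun m => g v • m) h2
    simpa only [smul_inv_smul] using h3
  nm_j := fun v a => by
    change H.nm v ((g v)⁻¹ • H.j a) = H.j a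
    rw [hH.weil.fix, hH.nm_j]
  prod := fun f hf hc => by
    rw [← hH.prod f hf hc]
    apply finsum_congr
    intro v
    change H.deg v • H.nm v ((g v)⁻¹ • f (g v * S.sg v * (g v)⁻¹)) = _
    rw [cocM_conj hc (hH.sgM v), inv_smul_smul]
  hasse := fun c hTF hc hl => hH.hasse c hTF hc fun v => cohM_conj h hTF hc v (hl v)

variable (hg : ∀ v, v ∉ S.good → g v = 1)
include hg

theorem conj_D_bad {v : Pl} (hv : v ∉ S.good) (s : G) : s ∈ (S.conj g).D v ↔ s ∈ S.D v := by
  rw [mem_conj_D, hg v hv, inv_one, one_mul, mul_one]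

theorem conj_isPr (hchi : S.HomG chi) {y : (G → V) × (Pl → V)} :
    IsPr (S.conj g) chi i y ↔ IsPr S chi i y := by
  constructor
  · intro hy
    exact ⟨(conj_isSel hchi).1 hy.sel, fun v hv s hs => hy.loc v hv s ((conj_D_bad hg hv s).2 hs),
      hy.off⟩
  · intro hy
    exact ⟨(conj_isSel hchi).2 hy.sel, fun v hv s hs => hy.loc v hv s ((conj_D_bad hg hv s).1 hs),
      hy.off⟩

omit hg in
theorem conj_Wl_iff (h : S.Ok) (hchi : S.HomG chi) {b : G → V1} (hb : S.CocG b) (v : Pl) :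
    (S.conj g).loc v b ∈ (S.conj g).Wl chi v ↔ S.loc v b ∈ S.Wl chi v := by
  rw [mem_conj_Wl h hchi, conj_loc hb]
  exact (S.W chi v).add_mem_cancel_right (cob_mem_Wl h chi v _)

omit hg in
theorem conj_isRel (h : S.Ok) (hchi : S.HomG chi) {b : G → V1} :
    IsRel (S.conj g) chi b ↔ IsRel S chi b :=
  ⟨fun hb => ⟨hb.1, fun v hv => (conj_Wl_iff h hchi hb.1 v).1 (hb.2 v hv)⟩,
    fun hb => ⟨hb.1, fun v hv => (conj_Wl_iff h hchi hb.1 v).2 (hb.2 v hv)⟩⟩

/-- The rigid pairing does not change. -/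
theorem conj_CTr (h : S.Ok) (hchi : S.HomG chi) {y : (G → V) × (Pl → V)}
    (hy : IsPr S chi i y) {b : G → V1} (hb : IsRel S chi b) :
    CTr (S.conj g) chi y b = CTr S chi y b := by
  obtain ⟨hf, hhf⟩ := Sys.exists_hf h
  obtain ⟨hat, Q, ⟨hd, hr⟩, -⟩ := exists_rlift h hchi hy (fun v => hf (y.2 v)) fun v _ => hhf _
  have hd' : (S.conj g).LiftData chi y.1 hat (fun v => tw chi (g v) (Q v) - hat (g v)) := by
    refine ⟨hd.tf, hd.coc, hd.two, fun v s hs => ?_⟩
    obtain ⟨t, ht, rfl⟩ := conj_exists hs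
    rw [twcoc_conj hchi.2 hy.sel.coc, hd.loc v t ht, dl_sub, dl_conj hchi.2, smul_sub, tw_nsmul,
      ← dl_nsmul _ 2 (hat (g v)), hd.two]
  have hr' : RLift (S.conj g) chi y hat (fun v => tw chi (g v) (Q v) - hat (g v)) := by
    refine ⟨hd', fun v hv => ?_⟩
    beta_reduce
    rw [hg v hv, tw_one hchi.2, coc_one hchi.2 hd.coc, sub_zero]
    exact hr v hv
  have key : ∀ v, ∀ s, hat (g v * s * (g v)⁻¹) -
      dl chi (tw chi (g v) (Q v) - hat (g v)) (g v * s * (g v)⁻¹) =
      tw chi (g v) (hat s - dl chi (Q v) s) := by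
    intro v s
    rw [twcoc_conj hchi.2 hd.coc, dl_sub, dl_conj hchi.2, tw_sub]
    abel
  have hxi : ∀ v, (S.conj g).xi chi hat (fun v => tw chi (g v) (Q v) - hat (g v)) v =
      S.ac2 (g v) (S.xi chi hat Q v) := by
    intro v
    refine Prod.ext ?_ ?_
    · change S.un (hat (g v * S.sg v * (g v)⁻¹) -
        dl chi (tw chi (g v) (Q v) - hat (g v)) (g v * S.sg v * (g v)⁻¹)) = S.ac (g v) (S.un _)
      rw [key, un_tw h _ _ (hd.two_sub v (h.sg_mem v))]
    · change S.un (hat (g v * S.phi v * (g v)⁻¹) -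
        dl chi (tw chi (g v) (Q v) - hat (g v)) (g v * S.phi v * (g v)⁻¹)) = S.ac (g v) (S.un _)
      rw [key, un_tw h _ _ (hd.two_sub v (h.phi_mem v))]
  rw [CTr_of_rlift (h.conj g) hchi hr' ((conj_isRel h hchi).2 hb),
    CTr_of_rlift h hchi ⟨hd, hr⟩ hb]
  apply finsum_congr
  intro v
  rw [hxi]
  exact conj_sy_right h (hd.xi_CP h hchi v) hb.1

/-- The height form does not change. -/
theorem conj_q (h : S.Ok) (hH : HOk S H) (hchi : S.HomG chi) {y : (G → V) × (Pl → V)}
    (hy : IsPr S chi i y) : q (S.conj g) (H.conj g) chi i y = q S H chi i y := by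
  obtain ⟨rho, hr⟩ := exists_rho h hH hchi hy.sel
  have hr' : IsRho (S.conj g) (H.conj g) chi i y.1 rho := ⟨hr.1, hr.2⟩
  have hy' := (conj_isPr (i := i) hg hchi).2 hy
  rw [q_eq (h.conj g) (hH.conj h g) hchi hy' hr', q_eq h hH hchi hy hr]
  unfold qs
  apply finsum_congr
  intro v
  change H.deg v • H.nm v ((g v)⁻¹ • (rho (g v * S.sg v * (g v)⁻¹) -
    bt H.e chi i (g v * S.sg v * (g v)⁻¹) (y.2 v) (y.2 v))) = _
  by_cases hv : v ∈ S.good
  · have z1 : bt H.e chi i (S.sg v) (0 : V) 0 = 0 :=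
      bt_zero_left h hH.weil (hH.sgM v) (by rw [dl_zero, smul_zero])
    have z2 : bt H.e chi i (g v * S.sg v * (g v)⁻¹) (0 : V) 0 = 0 :=
      bt_zero_left h hH.weil (conj_triv (hH.sgM v)) (by rw [dl_zero, smul_zero])
    beta_reduce
    rw [hy.off v hv, z1, z2, sub_zero, sub_zero, rho_conj h hH hchi hy.sel hr hv, inv_smul_smul]
  · rw [hg v hv, inv_one, one_mul, mul_one, one_smul]

end Pool.Agent.SmNH
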