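import Pool.Agent.Lib.SmNH.G.CTrAdd
import Pool.Agent.Lib.SmNH.Shrink

/-!
# HEIGHTS over SMITH-U, block G_h, module Count: the order of the relaxed Selmer group, counting lifts

`Lam` = the product of the groups `CP v` over the bad places `v`, with the sum of the local pairings;
by `BadOk` the radical is the group `radL` of the coboundaries. The subgroup generated by the image
of the relaxed Selmer group and by `radL` is its own orthogonal complement (`relL_perp`): the orders
are compared with the Kummer groups by `S.Ok.dual`.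

* `card_isRel`: `#IsRel = #IsStr * fixN`;
* `card_fiber`, `card_double`, `card_lift_of`, `card_lift_sum_of`: counting lifts under doubling.
-/

set_option autoImplicit false

namespace Pool.Agent.SmNH

open Pool.Agent.SmN Pool.Agent.SmN.Sys

/-! ### sums of characters -/

theorem sum_sgn_zero {A : Type*} [AddCommGroup A] [Finite A] (f : A →+ ZMod 2)
    (hf : ∀ a, f a = 0) : ∑ᶠ a, sgn (f a) = (Nat.card A : ℤ) := by
  classical
  have := Fintype.ofFinite A
  have h0 : sgn (0 : ZMod 2) = 1 := by decide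
  rw [finsum_eq_sum_of_fintype, Finset.sum_congr rfl fun a _ => by rw [hf a, h0],
    Finset.sum_const, Finset.card_univ, Nat.card_eq_fintype_card]
  simp

theorem sum_sgn_ne {A : Type*} [AddCommGroup A] [Finite A] (f : A →+ ZMod 2)
    {a0 : A} (h0 : f a0 ≠ 0) : ∑ᶠ a, sgn (f a) = 0 := by
  classical
  have := Fintype.ofFinite A
  rw [finsum_eq_sum_of_fintype]
  have h1 : f a0 = 1 := by
    have : ∀ x : ZMod 2, x ≠ 0 → x = 1 := by decide
    exact this _ h0
  have h2 : ∑ a, sgn (f a) = ∑ a, sgn (f (a + a0)) :=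
    (Equiv.sum_comp (Equiv.addRight a0) fun a => sgn (f a)).symm
  have h3 : ∀ x : ZMod 2, sgn (x + 1) = -sgn x := by decide
  simp only [map_add, h1, h3, Finset.sum_neg_distrib] at h2
  omega

section abs

variable {A : Type*} [AddCommGroup A]

/-- The orthogonal complement. -/
def perpL (B : A →+ A →+ ZMod 2) (R : AddSubgroup A) : AddSubgroup A where
  carrier := {x | ∀ r ∈ R, B x r = 0}
  zero_mem' := fun r _ => by rw [map_zero]; rfl
  add_mem' := fun {x y} hx hy r hr => by
    rw [map_add, AddMonoidHom.add_apply, hx r hr, hy r hr, add_zero]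
  neg_mem' := fun {x} hx r hr => by
    rw [map_neg, AddMonoidHom.neg_apply, hx r hr, neg_zero]

theorem mem_perpL {B : A →+ A →+ ZMod 2} {R : AddSubgroup A} {x : A} :
    x ∈ perpL B R ↔ ∀ r ∈ R, B x r = 0 := Iff.rfl

/-- The order of the orthogonal complement. -/
theorem card_perpL [Finite A] (B : A →+ A →+ ZMod 2) (rad R : AddSubgroup A)
    (hrad : ∀ y, y ∈ rad ↔ ∀ x, B x y = 0) (hR : rad ≤ R) :
    Nat.card (perpL B R) * Nat.card R = Nat.card A * Nat.card rad := by
  classical
  have := Fintype.ofFinite A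
  have h1 : ∀ x : A, ∑ r : R, sgn (B x r) = if x ∈ perpL B R then (Nat.card R : ℤ) else 0 := by
    intro x
    rw [← finsum_eq_sum_of_fintype]
    by_cases hx : x ∈ perpL B R
    · rw [if_pos hx]
      exact sum_sgn_zero ((B x).comp R.subtype) fun r => hx r.1 r.2
    · rw [if_neg hx]
      have h2 : ∃ r : R, ((B x).comp R.subtype) r ≠ 0 := by
        by_contra hc
        push Not at hc
        exact hx fun r hr => hc ⟨r, hr⟩
      obtain ⟨r, hr⟩ := h2
      exact sum_sgn_ne ((B x).comp R.subtype) hr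
  have h2 : ∀ r : R, ∑ x : A, sgn (B x r) = if (r : A) ∈ rad then (Nat.card A : ℤ) else 0 := by
    intro r
    rw [← finsum_eq_sum_of_fintype]
    by_cases hr : (r : A) ∈ rad
    · rw [if_pos hr]
      exact sum_sgn_zero (B.flip r.1) fun x => (hrad _).1 hr x
    · rw [if_neg hr]
      have h3 : ∃ x : A, (B.flip r.1) x ≠ 0 := by
        by_contra hc
        push Not at hc
        exact hr ((hrad _).2 hc)
      obtain ⟨x, hx⟩ := h3
      exact sum_sgn_ne (B.flip r.1) hx
  have h3 : ∑ x : A, ∑ r : R, sgn (B x r) = ∑ r : R, ∑ x : A, sgn (B x r) := Finset.sum_comm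
  rw [Finset.sum_congr rfl fun x _ => h1 x, Finset.sum_congr rfl fun r _ => h2 r,
    ← Finset.sum_filter, ← Finset.sum_filter, Finset.sum_const, Finset.sum_const, nsmul_eq_mul,
    nsmul_eq_mul] at h3
  have h4 : (Finset.univ.filter fun x : A => x ∈ perpL B R).card = Nat.card (perpL B R) := by
    rw [Nat.card_eq_fintype_card, Fintype.card_subtype]
  have h5 : (Finset.univ.filter fun r : R => (r : A) ∈ rad).card = Nat.card rad := by
    rw [← Fintype.card_subtype, ← Nat.card_eq_fintype_card]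
    exact Nat.card_congr
      { toFun := fun r => ⟨r.1.1, r.2⟩
        invFun := fun r => ⟨⟨r.1, hR r.2⟩, r.2⟩
        left_inv := fun _ => rfl
        right_inv := fun _ => rfl }
  rw [h4, h5] at h3
  have h6 : ((Nat.card (perpL B R) * Nat.card R : ℕ) : ℤ) = ((Nat.card rad * Nat.card A : ℕ) : ℤ) := by
    push_cast
    exact h3
  rw [mul_comm (Nat.card A)]
  exact_mod_cast h6

/-- `#(R + L) * #(R ∩ L) = #R * #L`. -/
theorem card_sup_inf (R L : AddSubgroup A) :
    Nat.card (R ⊓ L : AddSubgroup A) * Nat.card (R ⊔ L : AddSubgroup A) =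
      Nat.card R * Nat.card L := by
  let f : R × L →+ A := R.subtype.coprod L.subtype
  have h1 := card_hom f
  have h2 : f.range = R ⊔ L := by
    ext x
    rw [AddMonoidHom.mem_range, AddSubgroup.mem_sup]
    constructor
    · rintro ⟨⟨r, l⟩, rfl⟩
      exact ⟨r.1, r.2, l.1, l.2, rfl⟩
    · rintro ⟨r, hr, l, hl, rfl⟩
      exact ⟨(⟨r, hr⟩, ⟨l, hl⟩), rfl⟩
  have h3 : Nat.card f.ker = Nat.card (R ⊓ L : AddSubgroup A) := by
    refine Nat.card_congr
      { toFun := fun p => ⟨p.1.1.1, p.1.1.2, ?_⟩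
        invFun := fun x => ⟨(⟨x.1, x.2.1⟩, ⟨-x.1, L.neg_mem x.2.2⟩), ?_⟩
        left_inv := fun p => ?_
        right_inv := fun _ => rfl }
    · have h4 : p.1.1.1 + p.1.2.1 = 0 := AddMonoidHom.mem_ker.1 p.2
      rw [eq_neg_of_add_eq_zero_left h4]
      exact L.neg_mem p.1.2.2
    · rw [AddMonoidHom.mem_ker]
      change x.1 + -x.1 = 0
      exact add_neg_cancel _
    · have h4 : p.1.1.1 + p.1.2.1 = 0 := AddMonoidHom.mem_ker.1 p.2
      refine Subtype.ext (Prod.ext rfl (Subtype.ext ?_))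
      change -p.1.1.1 = p.1.2.1
      exact (eq_neg_of_add_eq_zero_right h4).symm
  rw [h2, h3, Nat.card_prod] at h1
  exact h1

/-- Two isotropic subgroups `R`, `L` which contain the radical, such that what is orthogonal to
`R ∩ L` lies in `R + L`: they have the same order and `R` is its own orthogonal complement. -/
theorem self_perp [Finite A] (B : A →+ A →+ ZMod 2) (rad R L : AddSubgroup A)
    (hrad : ∀ y, y ∈ rad ↔ ∀ x, B x y = 0) (hR : rad ≤ R) (hL : rad ≤ L)
    (hRR : ∀ x ∈ R, ∀ y ∈ R, B x y = 0) (hLL : ∀ x ∈ L, ∀ y ∈ L, B x y = 0)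
    (hd : ∀ x, (∀ y, y ∈ R → y ∈ L → B x y = 0) → x ∈ R ⊔ L) :
    Nat.card R = Nat.card L ∧ ∀ x, (∀ y ∈ R, B x y = 0) → x ∈ R := by
  have c1 := card_perpL B rad (R ⊓ L) hrad (le_inf hR hL)
  have c2 := card_sup_inf R L
  have c4 := card_perpL B rad R hrad hR
  have c5 := card_perpL B rad L hrad hL
  have c3 : Nat.card (perpL B (R ⊓ L)) ≤ Nat.card (R ⊔ L : AddSubgroup A) :=
    Nat.card_le_card_of_injective (fun x => (⟨x.1, hd x.1 fun y hy1 hy2 => x.2 y ⟨hy1, hy2⟩⟩ :
      (R ⊔ L : AddSubgroup A))) fun _ _ he => Subtype.ext (congrArg (fun x => x.1) he)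
  have hRP : R ≤ perpL B R := fun x hx y hy => hRR x hx y hy
  have hLP : L ≤ perpL B L := fun x hx y hy => hLL x hx y hy
  have c6 : Nat.card R ≤ Nat.card (perpL B R) :=
    Nat.card_le_card_of_injective (AddSubgroup.inclusion hRP) (AddSubgroup.inclusion_injective hRP)
  have c7 : Nat.card L ≤ Nat.card (perpL B L) :=
    Nat.card_le_card_of_injective (AddSubgroup.inclusion hLP) (AddSubgroup.inclusion_injective hLP)
  have p1 : 0 < Nat.card R := Nat.card_pos
  have p2 : 0 < Nat.card L := Nat.card_pos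
  set a := Nat.card A * Nat.card rad with ha
  have d1 : a ≤ Nat.card R * Nat.card L := by
    rw [← c1, ← c2, mul_comm]
    exact Nat.mul_le_mul_left _ c3
  have d2 : Nat.card R * Nat.card R ≤ a := by
    rw [← c4]
    exact Nat.mul_le_mul_right _ c6
  have d3 : Nat.card L * Nat.card L ≤ a := by
    rw [← c5]
    exact Nat.mul_le_mul_right _ c7
  have e1 : Nat.card R ≤ Nat.card L := Nat.le_of_mul_le_mul_left (d2.trans d1) p1
  have e2 : Nat.card L ≤ Nat.card R := by
    have := d3.trans d1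
    exact Nat.le_of_mul_le_mul_right this p2
  have e3 : Nat.card R = Nat.card L := le_antisymm e1 e2
  have e4 : Nat.card (perpL B R) = Nat.card R := by
    have h1 : Nat.card (perpL B R) * Nat.card R = Nat.card R * Nat.card R := by
      rw [c4]
      refine le_antisymm ?_ d2
      have := d1
      rw [← e3] at this
      exact this
    exact Nat.eq_of_mul_eq_mul_right p1 h1
  refine ⟨e3, fun x hx => ?_⟩
  have h1 : (R : Set A) = (perpL B R : Set A) := by
    refine Set.eq_of_subset_of_ncard_le hRP ?_ (Set.toFinite _)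
    rw [← Nat.card_coe_set_eq, ← Nat.card_coe_set_eq]
    exact e4.le
  have h2 : x ∈ (perpL B R : Set A) := hx
  rw [← h1] at h2
  exact h2

end abs

variable {G V V1 Pl : Type*} [Group G] [AddCommGroup V] [DistribMulAction G V]
  [AddCommGroup V1] [Module (ZMod 2) V1]
variable {S : Sys G V V1 Pl} {chi : G → ZMod 2} {i j : ℕ} {y y' : (G → V) × (Pl → V)}

/-! ### the local space of the bad places -/

/-- The local classes as a group. -/
def CPg (S : Sys G V V1 Pl) (h : S.Ok) (v : Pl) : AddSubgroup (V1 × V1) where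
  carrier := S.CP v
  zero_mem' := by
    have h1 := cob_mem_CP h v 0
    rwa [cob_zero] at h1
  add_mem' := fun hx hy => CP_add h hx hy
  neg_mem' := fun {x} hx => by
    have h1 : -x = x := Prod.ext (V1_neg _) (V1_neg _)
    rw [h1]
    exact hx

theorem mem_CPg {h : S.Ok} {v : Pl} {x : V1 × V1} : x ∈ CPg S h v ↔ x ∈ S.CP v := Iff.rfl

/-- The product of the local classes over the bad places. -/
abbrev Lam (S : Sys G V V1 Pl) (h : S.Ok) : Type _ := ∀ v : {v : Pl // v ∉ S.good}, CPg S h v.1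

theorem finite_Lam (h : S.Ok) : Finite (Lam S h) := by
  have := finite_bad h
  have := h.fin1
  infer_instance

section lam

variable [Fintype {v : Pl // v ∉ S.good}]

/-- The pairing on the product of the local groups at the bad places. -/
noncomputable def lamB (S : Sys G V V1 Pl) (h : S.Ok) [Fintype {v : Pl // v ∉ S.good}] :
    Lam S h →+ Lam S h →+ ZMod 2 :=
  AddMonoidHom.mk' (fun x => AddMonoidHom.mk' (fun y => ∑ v, S.sy v.1 (x v).1 (y v).1)
    fun y y' => by
      rw [← Finset.sum_add_distrib]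
      exact Finset.sum_congr rfl fun v _ => sy_add_right _ _ _ _)
    fun x x' => AddMonoidHom.ext fun y => by
      change ∑ v, S.sy v.1 ((x + x') v).1 (y v).1 = ∑ v, S.sy v.1 (x v).1 (y v).1 +
        ∑ v, S.sy v.1 (x' v).1 (y v).1
      rw [← Finset.sum_add_distrib]
      exact Finset.sum_congr rfl fun v _ => sy_add_left _ _ _ _

theorem lamB_apply (h : S.Ok) (x y : Lam S h) :
    lamB S h x y = ∑ v, S.sy v.1 (x v).1 (y v).1 := rfl

theorem lamB_comm (h : S.Ok) (x y : Lam S h) : lamB S h x y = lamB S h y x := by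
  rw [lamB_apply, lamB_apply]
  exact Finset.sum_congr rfl fun v _ => h.sy_comm v.1 _ (x v).2 _ (y v).2

end lam

/-- The coboundaries. -/
def radL (S : Sys G V V1 Pl) (h : S.Ok) : AddSubgroup (Lam S h) where
  carrier := {x | ∀ v, ∃ z, (x v).1 = S.cob v.1 z}
  zero_mem' := fun v => ⟨0, (cob_zero v.1).symm⟩
  add_mem' := fun {x y} hx hy v => by
    obtain ⟨z, hz⟩ := hx v
    obtain ⟨w, hw⟩ := hy v
    refine ⟨z + w, ?_⟩
    change (x v).1 + (y v).1 = _
    rw [hz, hw, cob_add]
  neg_mem' := fun {x} hx v => by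
    obtain ⟨z, hz⟩ := hx v
    refine ⟨-z, ?_⟩
    change -(x v).1 = _
    rw [hz]
    exact (map_neg (cobHom S v.1) z).symm

theorem mem_radL {h : S.Ok} {x : Lam S h} : x ∈ radL S h ↔ ∀ v, ∃ z, (x v).1 = S.cob v.1 z :=
  Iff.rfl

/-- The Kummer groups. -/
def kumL (S : Sys G V V1 Pl) (h : S.Ok) (chi : G → ZMod 2) : AddSubgroup (Lam S h) where
  carrier := {x | ∀ v, (x v).1 ∈ S.W chi v.1}
  zero_mem' := fun v => (S.W chi v.1).zero_mem
  add_mem' := fun {x y} hx hy v => (S.W chi v.1).add_mem (hx v) (hy v)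
  neg_mem' := fun {x} hx v => (S.W chi v.1).neg_mem (hx v)

theorem mem_kumL {h : S.Ok} {x : Lam S h} : x ∈ kumL S h chi ↔ ∀ v, (x v).1 ∈ S.Wl chi v.1 :=
  Iff.rfl

/-- The localisation of the relaxed Selmer group at the bad places. -/
def resL (S : Sys G V V1 Pl) (h : S.Ok) (chi : G → ZMod 2) : Rel S h chi →+ Lam S h where
  toFun b := fun v => ⟨S.loc v.1 b.1, loc_mem_CP b.2.1 v.1⟩
  map_zero' := rfl
  map_add' _ _ := rfl

theorem resL_apply (h : S.Ok) (b : Rel S h chi) (v : {v : Pl // v ∉ S.good}) :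
    (resL S h chi b v).1 = S.loc v.1 b.1 := rfl

/-- The image of the relaxed Selmer group and the coboundaries. -/
def relL (S : Sys G V V1 Pl) (h : S.Ok) (chi : G → ZMod 2) : AddSubgroup (Lam S h) :=
  (resL S h chi).range ⊔ radL S h

theorem mem_relL {h : S.Ok} {x : Lam S h} :
    x ∈ relL S h chi ↔ ∃ b, IsRel S chi b ∧ ∀ v : {v : Pl // v ∉ S.good}, ∃ z,
      (x v).1 = S.loc v.1 b + S.cob v.1 z := by
  constructor
  · intro hx
    obtain ⟨_, ⟨b, rfl⟩, c, hc, rfl⟩ := AddSubgroup.mem_sup.1 hx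
    refine ⟨b.1, b.2, fun v => ?_⟩
    obtain ⟨z, hz⟩ := hc v
    refine ⟨z, ?_⟩
    change S.loc v.1 b.1 + (c v).1 = _
    rw [hz]
  · rintro ⟨b, hb, hx⟩
    refine AddSubgroup.mem_sup.2 ⟨resL S h chi ⟨b, hb⟩, ⟨_, rfl⟩, x - resL S h chi ⟨b, hb⟩,
      fun v => ?_, add_sub_cancel _ _⟩
    obtain ⟨z, hz⟩ := hx v
    refine ⟨z, ?_⟩
    change (x v).1 - S.loc v.1 b = _
    rw [hz, add_sub_cancel_left]

/-- The sum over all places of the symbol with a relaxed Selmer element, if the other entry is in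
the Kummer group at the good places. -/
theorem finsum_sy_eq (h : S.Ok) (hchi : S.HomG chi) [Fintype {v : Pl // v ∉ S.good}]
    {x : Pl → V1 × V1} (hx : ∀ v ∈ S.good, x v ∈ S.Wl chi v) {b : G → V1} (hb : IsRel S chi b) :
    ∑ᶠ v, S.sy v (x v) (S.loc v b) =
      ∑ v : {v : Pl // v ∉ S.good}, S.sy v.1 (x v.1) (S.loc v.1 b) := by
  classical
  have h0 : ∀ v ∈ S.good, S.sy v (x v) (S.loc v b) = 0 := fun v hv =>
    h.isot chi hchi v _ (hx v hv) _ (hb.2 v hv)
  rw [finsum_eq_sum_of_support_subset (s := (Finset.univ : Finset {v : Pl // v ∉ S.good}).map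
    (Function.Embedding.subtype _)), Finset.sum_map]
  · rfl
  · intro v hv
    have hvg : v ∉ S.good := fun hg => hv (h0 v hg)
    rw [Finset.mem_coe, Finset.mem_map]
    exact ⟨⟨v, hvg⟩, Finset.mem_univ _, rfl⟩

/-- The radical consists of the coboundaries. -/
theorem mem_radL_iff (h : S.Ok) (hB : BadOk S) [Fintype {v : Pl // v ∉ S.good}] (y : Lam S h) :
    y ∈ radL S h ↔ ∀ x, lamB S h x y = 0 := by
  classical
  constructor
  · intro hy x
    rw [lamB_apply]
    refine Finset.sum_eq_zero fun v _ => ?_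
    obtain ⟨z, hz⟩ := hy v
    rw [hz]
    exact h.sy_cob v.1 _ (x v).2 z
  · intro hy v
    refine hB.nd v.1 v.2 _ (y v).2 fun x hx => ?_
    have h1 := hy (Pi.single v ⟨x, hx⟩)
    rw [lamB_apply, Finset.sum_eq_single v, Pi.single_eq_same] at h1
    · exact h1
    · intro w _ hw
      rw [Pi.single_eq_of_ne hw]
      exact sy_zero_left _ _
    · intro hv
      exact absurd (Finset.mem_univ v) hv

/-- The main fact: `relL` has the order of `kumL` and is its own orthogonal complement. -/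
theorem relL_perp (h : S.Ok) (hB : BadOk S) (hchi : S.HomG chi)
    [Fintype {v : Pl // v ∉ S.good}] :
    Nat.card (relL S h chi) = Nat.card (kumL S h chi) ∧
      ∀ x, (∀ y ∈ relL S h chi, lamB S h x y = 0) → x ∈ relL S h chi := by
  classical
  have := finite_Lam h
  have hr0 : ∀ x, ∀ c ∈ radL S h, lamB S h x c = 0 := fun x c hc =>
    (mem_radL_iff h hB c).1 hc x
  refine self_perp (lamB S h) (radL S h) _ _ (mem_radL_iff h hB) le_sup_right ?_ ?_ ?_ ?_
  · intro x hx v
    obtain ⟨z, hz⟩ := hx v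
    change (x v).1 ∈ S.Wl chi v.1
    rw [hz]
    exact cob_mem_Wl h chi v.1 z
  · intro x hx y hy
    obtain ⟨_, ⟨b, rfl⟩, c, hc, rfl⟩ := AddSubgroup.mem_sup.1 hx
    obtain ⟨_, ⟨b', rfl⟩, c', hc', rfl⟩ := AddSubgroup.mem_sup.1 hy
    rw [map_add, hr0 _ c' hc', add_zero, lamB_comm, map_add, hr0 _ c hc, add_zero, lamB_apply]
    have h1 := finsum_sy_eq h hchi (x := fun v => S.loc v b'.1) (fun v hv => b'.2.2 v hv) b.2
    exact h1.symm.trans (h.recip _ _ b'.2.1 b.2.1)
  · intro x hx y hy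
    rw [lamB_apply]
    exact Finset.sum_eq_zero fun v _ => h.isot chi hchi v.1 _ (hx v) _ (hy v)
  · intro x hx
    let xi : Pl → V1 × V1 := fun v => if hv : v ∉ S.good then (x ⟨v, hv⟩).1 else 0
    have hxg : ∀ v ∈ S.good, xi v = 0 := fun v hv => dif_neg (not_not.2 hv)
    have hxb : ∀ v : {v : Pl // v ∉ S.good}, xi v.1 = (x v).1 := fun v => dif_pos v.2
    have hxW : ∀ v ∈ S.good, xi v ∈ S.Wl chi v := fun v hv => by
      rw [hxg v hv]
      exact (S.W chi v).zero_mem
    obtain ⟨om, hom, hloc⟩ := h.dual (S.W chi) (fun v => Wl_sub_CP h hchi v)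
      (fun v z => cob_mem_Wl h chi v z) (card_W h hchi)
      (fun v x hx y hy => h.isot chi hchi v x hx y hy) (exc_fin h hchi) xi
      (fun v => by
        by_cases hv : v ∈ S.good
        · exact Wl_sub_CP h hchi v (hxW v hv)
        · have h1 := hxb ⟨v, hv⟩
          rw [show xi v = (x ⟨v, hv⟩).1 from h1]
          exact (x ⟨v, hv⟩).2)
      (h.good_fin.subset fun v hv hg => hv (hxW v hg))
      (fun b hb1 hb2 => by
        have hbr : IsRel S chi b := ⟨hb1, fun v _ => hb2 v⟩
        rw [finsum_sy_eq h hchi hxW hbr]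
        have h1 := hx (resL S h chi ⟨b, hbr⟩) (AddSubgroup.mem_sup_left ⟨_, rfl⟩)
          (fun v => hb2 v.1)
        rw [lamB_apply] at h1
        refine Eq.trans (Finset.sum_congr rfl fun v _ => ?_) h1
        rw [hxb v]
        rfl)
    have hrel : IsRel S chi om := ⟨hom, fun v hv => by
      have h1 := hloc v
      rw [hxg v hv, sub_zero] at h1
      exact h1⟩
    refine AddSubgroup.mem_sup.2 ⟨resL S h chi ⟨om, hrel⟩, AddSubgroup.mem_sup_left ⟨_, rfl⟩,
      x - resL S h chi ⟨om, hrel⟩, fun v => ?_, add_sub_cancel _ _⟩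
    have h1 := (S.W chi v.1).neg_mem (hloc v.1)
    rw [neg_sub, hxb v] at h1
    exact h1

/-! ### orders -/

theorem card_kumL (h : S.Ok) (hchi : S.HomG chi) [Fintype {v : Pl // v ∉ S.good}] :
    Nat.card (kumL S h chi) = Nat.card V1 ^ Nat.card {v : Pl // v ∉ S.good} := by
  have h1 : Nat.card (kumL S h chi) =
      Nat.card (∀ v : {v : Pl // v ∉ S.good}, S.W chi v.1) :=
    Nat.card_congr
      { toFun := fun x v => ⟨(x.1 v).1, x.2 v⟩
        invFun := fun x => ⟨fun v => ⟨(x v).1, Wl_sub_CP h hchi v.1 (x v).2⟩, fun v => (x v).2⟩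
        left_inv := fun _ => rfl
        right_inv := fun _ => rfl }
  rw [h1, Nat.card_pi, Finset.prod_congr rfl fun v _ => card_W h hchi v.1, Finset.prod_const,
    Finset.card_univ, Nat.card_eq_fintype_card (α := {v : Pl // v ∉ S.good})]

theorem card_radL (h : S.Ok) [Fintype {v : Pl // v ∉ S.good}] :
    fixN S * Nat.card (radL S h) = Nat.card V1 ^ Nat.card {v : Pl // v ∉ S.good} := by
  have h1 : Nat.card (radL S h) =
      Nat.card (∀ v : {v : Pl // v ∉ S.good}, (cobHom S v.1).range) :=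
    Nat.card_congr
      { toFun := fun x v => ⟨(x.1 v).1, by
          obtain ⟨z, hz⟩ := x.2 v
          exact ⟨z, hz.symm⟩⟩
        invFun := fun x => ⟨fun v => ⟨(x v).1, by
          obtain ⟨z, hz⟩ := (x v).2
          rw [← hz]
          exact cob_mem_CP h v.1 z⟩, fun v => by
          obtain ⟨z, hz⟩ := (x v).2
          exact ⟨z, hz.symm⟩⟩
        left_inv := fun _ => rfl
        right_inv := fun _ => rfl }
  rw [h1, Nat.card_pi, fixN, finprod_eq_prod_of_fintype, ← Finset.prod_mul_distrib,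
    Nat.card_eq_fintype_card (α := {v : Pl // v ∉ S.good}), ← Finset.card_univ,
    ← Finset.prod_const]
  exact Finset.prod_congr rfl fun v _ => card_hom (cobHom S v.1)

/-- The kernel of the localisation modulo the coboundaries is the strict Selmer group. -/
theorem card_Rel_radL (h : S.Ok) :
    Nat.card {b : G → V1 // IsStr S chi b} * Nat.card (relL S h chi) =
      Nat.card {b : G → V1 // IsRel S chi b} * Nat.card (radL S h) := by
  let f : Rel S h chi × radL S h →+ Lam S h := (resL S h chi).coprod (radL S h).subtype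
  have h1 := card_hom f
  have h2 : f.range = relL S h chi := by
    ext x
    rw [AddMonoidHom.mem_range, relL, AddSubgroup.mem_sup]
    constructor
    · rintro ⟨⟨r, l⟩, rfl⟩
      exact ⟨resL S h chi r, ⟨r, rfl⟩, l.1, l.2, rfl⟩
    · rintro ⟨_, ⟨r, rfl⟩, l, hl, rfl⟩
      exact ⟨(r, ⟨l, hl⟩), rfl⟩
  have h3 : Nat.card f.ker = Nat.card {b : G → V1 // IsStr S chi b} := by
    refine Nat.card_congr
      { toFun := fun p => ⟨p.1.1.1, isStr_of_isRel h p.1.1.2 fun v hv => ?_⟩
        invFun := fun b => ⟨(⟨b.1, b.2.isRel⟩, ⟨-resL S h chi ⟨b.1, b.2.isRel⟩,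
          (radL S h).neg_mem fun v => b.2.2 v.1 v.2⟩), ?_⟩
        left_inv := fun p => ?_
        right_inv := fun _ => rfl }
    · have h4 : resL S h chi p.1.1 + p.1.2.1 = 0 := AddMonoidHom.mem_ker.1 p.2
      have h5 : resL S h chi p.1.1 ∈ radL S h := by
        rw [eq_neg_of_add_eq_zero_left h4]
        exact (radL S h).neg_mem p.1.2.2
      exact h5 ⟨v, hv⟩
    · rw [AddMonoidHom.mem_ker]
      change resL S h chi ⟨b.1, b.2.isRel⟩ + -resL S h chi ⟨b.1, b.2.isRel⟩ = 0
      exact add_neg_cancel _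
    · have h4 : resL S h chi p.1.1 + p.1.2.1 = 0 := AddMonoidHom.mem_ker.1 p.2
      refine Subtype.ext (Prod.ext rfl (Subtype.ext ?_))
      change -resL S h chi p.1.1 = p.1.2.1
      exact (eq_neg_of_add_eq_zero_right h4).symm
  rw [h2, h3, Nat.card_prod] at h1
  exact h1

/-- The order of the relaxed Selmer group. -/
theorem card_isRel (h : S.Ok) (hB : BadOk S) (hchi : S.HomG chi) :
    Nat.card {b : G → V1 // IsRel S chi b} = Nat.card {b : G → V1 // IsStr S chi b} * fixN S := by
  have := finite_bad h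
  have := Fintype.ofFinite {v : Pl // v ∉ S.good}
  have := finite_Lam h
  have h1 := card_Rel_radL (chi := chi) h
  rw [(relL_perp h hB hchi).1, card_kumL h hchi, ← card_radL h, ← mul_assoc] at h1
  exact (Nat.eq_of_mul_eq_mul_right Nat.card_pos h1).symm

/-! ### the number of lifts -/

/-- The lifts of an element which has one. -/
theorem card_fiber (h : S.Ok) (hchi : S.HomG chi) (hf : Finite {b : G → V1 // IsRel S chi b})
    {y0 : (G → V) × (Pl → V)} (hy0 : IsPr S chi (i + 1) y0) :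
    Nat.card {y' : (G → V) × (Pl → V) // IsPr S chi (i + 1) y' ∧ (2 : ℕ) • y' = (2 : ℕ) • y0} =
      Nat.card {b : G → V1 // IsStr S chi b} * fixN S := by
  rw [← card_ker h hchi (finite_isStr hf) i]
  exact Nat.card_congr
    { toFun := fun y' => ⟨y'.1 - y0, y'.2.1.sub h hy0, by rw [smul_sub, y'.2.2, sub_self]⟩
      invFun := fun y' => ⟨y'.1 + y0, y'.2.1.add h hy0, by rw [smul_add, y'.2.2, zero_add]⟩
      left_inv := fun y' => Subtype.ext (sub_add_cancel _ _)
      right_inv := fun y' => Subtype.ext (add_sub_cancel_right _ _) }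

/-- The number of lifts of `y` as a character sum. -/
theorem card_lift_of (h : S.Ok) (hB : BadOk S) (hchi : S.HomG chi)
    (hf : Finite {b : G → V1 // IsRel S chi b})
    (hcrit : (∃ y', IsPr S chi (i + 1) y' ∧ (2 : ℕ) • y' = y) ↔
      ∀ b, IsRel S chi b → CTr S chi y b = 0)
    (hy : IsPr S chi i y) :
    (Nat.card {y' : (G → V) × (Pl → V) // IsPr S chi (i + 1) y' ∧ (2 : ℕ) • y' = y} : ℤ) =
      ∑ᶠ b : {b : G → V1 // IsRel S chi b}, sgn (CTr S chi y b.1) := by
  have : Finite (Rel S h chi) := hf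
  by_cases hl : ∃ y', IsPr S chi (i + 1) y' ∧ (2 : ℕ) • y' = y
  · have h0 := hcrit.1 hl
    obtain ⟨y0, h1, rfl⟩ := hl
    rw [card_fiber h hchi hf h1, ← card_isRel h hB hchi]
    exact (sum_sgn_zero (ctrR h hchi hy) fun b => h0 b.1 b.2).symm
  · have h1 : IsEmpty {y' : (G → V) × (Pl → V) // IsPr S chi (i + 1) y' ∧ (2 : ℕ) • y' = y} :=
      ⟨fun y' => hl ⟨y'.1, y'.2⟩⟩
    rw [Nat.card_of_isEmpty]
    have h2 := hl
    rw [hcrit] at h2
    push Not at h2
    obtain ⟨b, hb, hne⟩ := h2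
    exact (sum_sgn_ne (ctrR h hchi hy) (a0 := (⟨b, hb⟩ : Rel S h chi)) hne).symm

/-- Counting the elements of level `i + 1` by their doubles. -/
theorem card_double (h : S.Ok) (hchi : S.HomG chi) (hf : Finite {b : G → V1 // IsRel S chi b})
    (P : (G → V) × (Pl → V) → Prop) :
    Nat.card {y' : (G → V) × (Pl → V) // IsPr S chi (i + 1) y' ∧ P ((2 : ℕ) • y')} =
      ∑ᶠ y : {y : (G → V) × (Pl → V) // IsPr S chi i y ∧ P y},
        Nat.card {y' : (G → V) × (Pl → V) // IsPr S chi (i + 1) y' ∧ (2 : ℕ) • y' = y.1} := by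
  classical
  have h1 : Finite {y : (G → V) × (Pl → V) // IsPr S chi i y} := finite_isPr h hchi hf i
  have h2 : Finite {y : (G → V) × (Pl → V) // IsPr S chi (i + 1) y} :=
    finite_isPr h hchi hf (i + 1)
  have h3 : Finite {y : (G → V) × (Pl → V) // IsPr S chi i y ∧ P y} :=
    Finite.of_injective (fun y => (⟨y.1, y.2.1⟩ : {y : (G → V) × (Pl → V) // IsPr S chi i y}))
      fun _ _ he => Subtype.ext (congrArg (fun x => x.1) he)
  have h4 : ∀ y : (G → V) × (Pl → V),
      Finite {y' : (G → V) × (Pl → V) // IsPr S chi (i + 1) y' ∧ (2 : ℕ) • y' = y} := fun y =>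
    Finite.of_injective
      (fun y' => (⟨y'.1, y'.2.1⟩ : {y : (G → V) × (Pl → V) // IsPr S chi (i + 1) y}))
      fun _ _ he => Subtype.ext (congrArg (fun x => x.1) he)
  have := Fintype.ofFinite {y : (G → V) × (Pl → V) // IsPr S chi i y ∧ P y}
  rw [finsum_eq_sum_of_fintype, ← Nat.card_sigma]
  exact Nat.card_congr
    { toFun := fun y' => ⟨⟨(2 : ℕ) • y'.1, y'.2.1.two, y'.2.2⟩, ⟨y'.1, y'.2.1, rfl⟩⟩
      invFun := fun p => ⟨p.2.1, p.2.2.1, by rw [p.2.2.2]; exact p.1.2.2⟩
      left_inv := fun _ => rfl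
      right_inv := fun p => by
        obtain ⟨⟨y, h5⟩, ⟨y', h6, h7⟩⟩ := p
        change (2 : ℕ) • y' = y at h7
        subst h7
        rfl }

/-- The number of the elements of level `i + 1` whose double satisfies `P`, as a double character
sum. -/
theorem card_lift_sum_of (h : S.Ok) (hB : BadOk S) (hchi : S.HomG chi)
    (hf : Finite {b : G → V1 // IsRel S chi b})
    (hcrit : ∀ y, IsPr S chi i y → ((∃ y', IsPr S chi (i + 1) y' ∧ (2 : ℕ) • y' = y) ↔
      ∀ b, IsRel S chi b → CTr S chi y b = 0))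
    (P : (G → V) × (Pl → V) → Prop) :
    (Nat.card {y' : (G → V) × (Pl → V) // IsPr S chi (i + 1) y' ∧ P ((2 : ℕ) • y')} : ℤ) =
      ∑ᶠ y : {y : (G → V) × (Pl → V) // IsPr S chi i y ∧ P y},
        ∑ᶠ b : {b : G → V1 // IsRel S chi b}, sgn (CTr S chi y.1 b.1) := by
  have h1 : Finite {y : (G → V) × (Pl → V) // IsPr S chi i y} := finite_isPr h hchi hf i
  have h3 : Finite {y : (G → V) × (Pl → V) // IsPr S chi i y ∧ P y} :=
    Finite.of_injective (fun y => (⟨y.1, y.2.1⟩ : {y : (G → V) × (Pl → V) // IsPr S chi i y}))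
      fun _ _ he => Subtype.ext (congrArg (fun x => x.1) he)
  have := Fintype.ofFinite {y : (G → V) × (Pl → V) // IsPr S chi i y ∧ P y}
  rw [card_double h hchi hf P, finsum_eq_sum_of_fintype, finsum_eq_sum_of_fintype, Nat.cast_sum]
  exact Finset.sum_congr rfl fun y _ =>
    card_lift_of h hB hchi hf (hcrit y.1 y.2.1) y.2.1

end Pool.Agent.SmNH
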