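import Pool.Agent.Lib.SmNH.G.Pr
import Pool.Agent.Lib.SmNH.Shrink
import Pool.Agent.Lib.SmN.P.Kramer

/-!
# HEIGHTS over SMITH-U, block G_h, module Dual: duality with relaxed or strict conditions at the bad
places

Port of `Lib/SmH/G/Dual.lean` to `SmN.Sys`. `dualR`: at the bad places `loc v om = xi v` up to
coboundaries, test elements in the relaxed Selmer group `IsRel`. `dualS`: no condition at the bad
places, test elements in the strict Selmer group `IsStr`. The pairing over the bad places is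
degenerate, its radical is the group of the coboundaries (`BadOk`).
-/

set_option autoImplicit false

open Finset

namespace Pool.Agent.SmNH

open Pool.Agent.SmN Pool.Agent.SmN.Sys

section lin

variable {k Y : Type*} [Field k] [AddCommGroup Y] [Module k Y] [FiniteDimensional k Y]

/-- The double orthogonal for a degenerate form. -/
theorem orth_orth (B : LinearMap.BilinForm k Y) (hB : B.IsRefl) (P : Submodule k Y) :
    B.orthogonal (B.orthogonal P) = P ⊔ B.orthogonal ⊤ := by
  symm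
  refine Submodule.eq_of_le_of_finrank_eq ?_ ?_
  · exact sup_le (LinearMap.BilinForm.le_orthogonal_orthogonal hB)
      (LinearMap.BilinForm.orthogonal_le le_top)
  · have h1 := LinearMap.BilinForm.finrank_add_finrank_orthogonal hB P
    have h2 := LinearMap.BilinForm.finrank_add_finrank_orthogonal hB (B.orthogonal P)
    have h3 := Submodule.finrank_sup_add_finrank_inf_eq P (B.orthogonal ⊤)
    have h4 : B.orthogonal P ⊓ B.orthogonal ⊤ = B.orthogonal ⊤ :=
      inf_eq_right.2 (LinearMap.BilinForm.orthogonal_le le_top)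
    rw [h4] at h2
    omega

/-- A functional which vanishes on the preimage of the radical is represented by an element. -/
theorem exists_rep (B : LinearMap.BilinForm k Y) (hs : ∀ x y, B x y = B y x) {M : Type*}
    [AddCommGroup M] [Module k M] (Φ : M →ₗ[k] Y) (f : M →ₗ[k] k)
    (hf : ∀ m, (∀ y, B y (Φ m) = 0) → f m = 0) : ∃ eta, ∀ m, B eta (Φ m) = f m := by
  let Ψ : M →ₗ[k] (Y ⧸ B.orthogonal ⊤) := (B.orthogonal ⊤).mkQ.comp Φ
  have h1 : f ∈ LinearMap.range Ψ.dualMap := by
    rw [LinearMap.range_dualMap_eq_dualAnnihilator_ker, Submodule.mem_dualAnnihilator]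
    intro m hm
    have h2 : Φ m ∈ B.orthogonal ⊤ := (Submodule.Quotient.mk_eq_zero _).1 (LinearMap.mem_ker.1 hm)
    exact hf m fun y => h2 y Submodule.mem_top
  obtain ⟨g, hg⟩ := h1
  have h2 : g.comp (B.orthogonal ⊤).mkQ ∈ LinearMap.range (LinearMap.dualMap B) := by
    rw [LinearMap.range_dualMap_eq_dualAnnihilator_ker, Submodule.mem_dualAnnihilator]
    intro y hy
    have h3 : y ∈ B.orthogonal ⊤ := fun n _ => by
      change B n y = 0
      rw [hs, LinearMap.mem_ker.1 hy, LinearMap.zero_apply]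
    rw [LinearMap.comp_apply, Submodule.mkQ_apply, (Submodule.Quotient.mk_eq_zero _).2 h3, map_zero]
  obtain ⟨xi, hxi⟩ := h2
  refine ⟨(Module.evalEquiv k Y).symm xi, fun m => ?_⟩
  have h3 : B (Φ m) ((Module.evalEquiv k Y).symm xi) = xi (B (Φ m)) := by
    conv_rhs => rw [← (Module.evalEquiv k Y).apply_symm_apply xi]
    rfl
  rw [hs, h3]
  have h4 := LinearMap.congr_fun hxi (Φ m)
  have h5 := LinearMap.congr_fun hg m
  exact h4.trans h5

end lin

variable {G V V1 Pl : Type*} [Group G] [AddCommGroup V] [DistribMulAction G V]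
  [AddCommGroup V1] [Module (ZMod 2) V1] {S : Sys G V V1 Pl} {chi : G → ZMod 2}

/-- The finite set of the bad places. -/
noncomputable def bad (h : S.Ok) : Finset Pl := h.good_fin.toFinset

theorem mem_bad {h : S.Ok} {v : Pl} : v ∈ bad h ↔ v ∉ S.good := by
  rw [bad, Set.Finite.mem_toFinset, Set.mem_compl_iff]

/-- A sum over the places which vanishes at the good places. -/
theorem finsum_bad (h : S.Ok) {A : Type*} [AddCommMonoid A] {f : Pl → A}
    (hf : ∀ v ∈ S.good, f v = 0) : ∑ᶠ v, f v = ∑ v : bad h, f v.1 := by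
  rw [Finset.sum_coe_sort (bad h) f]
  refine finsum_eq_sum_of_support_subset _ fun v hv => ?_
  rw [Finset.mem_coe, mem_bad]
  exact fun hg => hv (hf v hg)

theorem zero_mem_CP (h : S.Ok) (v : Pl) : (0 : V1 × V1) ∈ S.CP v := by
  have h1 := cob_mem_CP h v 0
  rwa [cob_zero] at h1

/-- The pairing over the bad places, on the families of pairs of values of local cocycles. -/
noncomputable def bY (h : S.Ok) : LinearMap.BilinForm (ZMod 2) (S.CPU (bad h) h) :=
  (S.bU (bad h)).restrict (S.CPU (bad h) h)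

theorem bY_apply (h : S.Ok) (x y : S.CPU (bad h) h) : bY h x y = S.bU (bad h) x.1 y.1 := rfl

theorem bY_comm (h : S.Ok) (x y : S.CPU (bad h) h) : bY h x y = bY h y x :=
  S.bU_comm (bad h) h x.2 y.2

theorem bY_refl (h : S.Ok) : (bY h).IsRefl := fun x y hxy => by
  rw [bY_comm]
  exact hxy

/-- The radical. -/
theorem rad_cob (h : S.Ok) (hB : BadOk S) {x : S.CPU (bad h) h} (hx : ∀ y, bY h y x = 0) :
    ∃ z : bad h → V1, ∀ v, x.1 v = S.cob v.1 (z v) := by
  classical
  have h1 : ∀ v : bad h, ∃ z, x.1 v = S.cob v.1 z := by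
    intro v
    refine hB.nd v.1 (mem_bad.1 v.2) _ (x.2 v) fun y hy => ?_
    have h2 : (Pi.single v y : bad h → V1 × V1) ∈ S.CPU (bad h) h := by
      intro w
      by_cases hw : w = v
      · subst hw
        rw [Pi.single_eq_same]
        exact hy
      · rw [Pi.single_eq_of_ne hw]
        exact zero_mem_CP h _
    have h3 : S.bU (bad h) (Pi.single v y : bad h → V1 × V1) x.1 = 0 := hx ⟨_, h2⟩
    rw [bU_apply, Finset.sum_eq_single v] at h3
    · rwa [Pi.single_eq_same] at h3
    · intro w _ hw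
      rw [Pi.single_eq_of_ne hw, sy_zero_left]
    · intro h4
      exact absurd (Finset.mem_univ v) h4
  choose z hz using h1
  exact ⟨z, hz⟩

theorem cob_rad (h : S.Ok) {x : S.CPU (bad h) h} (hx : ∀ v, ∃ z, x.1 v = S.cob v.1 z)
    (y : S.CPU (bad h) h) : bY h y x = 0 := by
  rw [bY_apply, bU_apply]
  refine Finset.sum_eq_zero fun v _ => ?_
  obtain ⟨z, hz⟩ := hx v
  rw [hz]
  exact h.sy_cob v.1 _ (y.2 v) z

/-- The values of a cocycle at the bad places. -/
def lcY (h : S.Ok) {b : G → V1} (hb : S.CocG b) : S.CPU (bad h) h :=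
  ⟨fun v => S.loc v.1 b, fun v => loc_mem_CP hb v.1⟩

theorem lcY_apply (h : S.Ok) {b : G → V1} (hb : S.CocG b) (v : bad h) :
    (lcY h hb).1 v = S.loc v.1 b := rfl

/-- Two elements of the relaxed Selmer group are orthogonal over the bad places. -/
theorem bY_rel (h : S.Ok) (hchi : S.HomG chi) {b b' : G → V1} (hb : IsRel S chi b)
    (hb' : IsRel S chi b') : bY h (lcY h hb.1) (lcY h hb'.1) = 0 := by
  rw [bY_apply, bU_apply, ← h.recip b b' hb.1 hb'.1]
  exact (finsum_bad h fun v hv => h.isot chi hchi v _ (hb.2 v hv) _ (hb'.2 v hv)).symm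

/-- The relaxed elements in the product over the bad places. -/
noncomputable def AY (h : S.Ok) (chi : G → ZMod 2) : Submodule (ZMod 2) (S.CPU (bad h) h) :=
  (S.GU (bad h) chi h).comap (S.CPU (bad h) h).subtype

theorem mem_AY {h : S.Ok} {x : S.CPU (bad h) h} :
    x ∈ AY h chi ↔ ∃ b, ∃ hb : IsRel S chi b, lcY h hb.1 = x := by
  rw [AY, Submodule.mem_comap, mem_GU]
  constructor
  · rintro ⟨c, h1, h2, h3⟩
    exact ⟨c, ⟨h1, fun v hv => h3 v fun hb => (mem_bad.1 hb) hv⟩, Subtype.ext (funext h2)⟩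
  · rintro ⟨b, hb, rfl⟩
    exact ⟨b, hb.1, fun _ => rfl, fun v hv => hb.2 v (not_not.1 fun hg => hv (mem_bad.2 hg))⟩

/-- The image of the relaxed Selmer group in the product over the bad places is its own
orthogonal, up to coboundaries. -/
theorem exists_rel_of_orth (h : S.Ok) (hB : BadOk S) (hchi : S.HomG chi)
    {x : S.CPU (bad h) h} (hx : ∀ b, ∀ hb : IsRel S chi b, bY h x (lcY h hb.1) = 0) :
    ∃ b : G → V1, IsRel S chi b ∧ ∃ z : bad h → V1,
      ∀ v : bad h, S.loc v.1 b = x.1 v + S.cob v.1 (z v) := by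
  have := h.fin1
  have : Module.Finite (ZMod 2) V1 := Module.Finite.of_finite
  have hfd : FiniteDimensional (ZMod 2) (S.CPU (bad h) h) := inferInstance
  let A := AY h chi
  let W : Submodule (ZMod 2) (S.CPU (bad h) h) :=
    (S.PW (bad h) chi).comap (S.CPU (bad h) h).subtype
  have hAA : ∀ x ∈ A, ∀ y ∈ A, bY h x y = 0 := by
    intro x hx y hy
    obtain ⟨b, hb, rfl⟩ := mem_AY.1 hx
    obtain ⟨b', hb', rfl⟩ := mem_AY.1 hy
    exact bY_rel h hchi hb hb'
  have hWW : ∀ x ∈ W, ∀ y ∈ W, bY h x y = 0 := by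
    intro x hx y hy
    rw [bY_apply, bU_apply]
    exact Finset.sum_eq_zero fun v _ =>
      h.isot chi hchi v.1 _ ((S.mem_PW (bad h)).1 hx v) _ ((S.mem_PW (bad h)).1 hy v)
  -- duality
  have hdu : ∀ x : S.CPU (bad h) h, (∀ y ∈ A ⊓ W, bY h y x = 0) → x ∈ A ⊔ W := by
    intro x hx
    have h1 := dual_GU h hchi (bad h) x.1 x.2 fun y hy => by
      have hyY := GU_le S (bad h) h chi hy.1
      exact hx ⟨y, hyY⟩ ⟨hy.1, hy.2⟩
    rw [Submodule.mem_sup] at h1 ⊢
    obtain ⟨a, ha, w, hw, haw⟩ := h1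
    exact ⟨⟨a, GU_le S (bad h) h chi ha⟩, ha, ⟨w, PW_le S (bad h) h hchi hw⟩, hw, Subtype.ext haw⟩
  have hxA : ∀ y ∈ A, bY h y x = 0 := by
    intro y hy
    obtain ⟨b, hb, rfl⟩ := mem_AY.1 hy
    rw [bY_comm]
    exact hx b hb
  have h1 := hdu x fun y hy => hxA y hy.1
  rw [Submodule.mem_sup] at h1
  obtain ⟨a, ha, w, hw, haw⟩ := h1
  -- `w` is in the double orthogonal of `A ⊓ W`
  have hwA : ∀ y ∈ A, bY h y w = 0 := by
    intro y hy
    have h2 := hxA y hy
    rw [← haw, map_add, hAA y hy a ha, zero_add] at h2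
    exact h2
  have h2 : w ∈ (bY h).orthogonal ((bY h).orthogonal (A ⊓ W)) := by
    rw [LinearMap.BilinForm.mem_orthogonal_iff]
    intro y hy
    rw [LinearMap.BilinForm.mem_orthogonal_iff] at hy
    have h3 := hdu y fun y' hy' => hy y' hy'
    rw [Submodule.mem_sup] at h3
    obtain ⟨a', ha', w', hw', rfl⟩ := h3
    change bY h (a' + w') w = 0
    rw [map_add, LinearMap.add_apply, hwA a' ha', hWW w' hw' w hw, add_zero]
  rw [orth_orth (bY h) (bY_refl h), Submodule.mem_sup] at h2
  obtain ⟨p, hp, r, hr, hpr⟩ := h2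
  obtain ⟨b, hb, hbe⟩ := mem_AY.1 (A.add_mem ha hp.1)
  obtain ⟨z, hz⟩ := rad_cob h hB (x := r) fun y => hr y Submodule.mem_top
  refine ⟨b, hb, z, fun v => ?_⟩
  have h3 : x = (a + p) + r := by
    rw [← haw, ← hpr]
    abel
  have h4 := congrFun (congrArg Subtype.val hbe) v
  have h5 : x.1 v = (a + p).1 v + r.1 v := by
    rw [h3]
    rfl
  rw [h5, hz v, add_assoc, ZModModule.add_self, add_zero]
  exact h4

private theorem Dual_fin (h : S.Ok) {xi : Pl → V1 × V1}
    (hfin : {v | v ∈ S.good ∧ xi v ∉ S.Wl chi v}.Finite) : {v | xi v ∉ S.W chi v}.Finite := by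
  refine (hfin.union h.good_fin).subset fun v hv => ?_
  by_cases hg : v ∈ S.good
  · exact Or.inl ⟨hg, hv⟩
  · exact Or.inr hg

theorem neg_VV (x : V1 × V1) : -x = x := ZModModule.neg_eq_self _

/-- Duality with a strict condition (up to coboundaries) at the bad places and test elements in the
relaxed Selmer group. -/
theorem dualR (h : S.Ok) (hB : BadOk S) (hchi : S.HomG chi) {xi : Pl → V1 × V1}
    (hcp : ∀ v, xi v ∈ S.CP v)
    (hfin0 : {v | v ∈ S.good ∧ xi v ∉ S.Wl chi v}.Finite)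
    (hxi : ∀ b, IsRel S chi b → ∑ᶠ v, S.sy v (xi v) (S.loc v b) = 0) :
    ∃ om : G → V1, S.CocG om ∧ (∀ v, v ∉ S.good → ∃ z, S.loc v om = xi v + S.cob v z) ∧
      ∀ v ∈ S.good, S.loc v om - xi v ∈ S.W chi v := by
  have hfin := Dual_fin h hfin0
  obtain ⟨om, hom, hloc⟩ := h.dual (S.W chi) (fun v => Wl_sub_CP h hchi v)
    (fun v z => cob_mem_Wl h chi v z) (card_W h hchi)
    (fun v x hx y hy => h.isot chi hchi v x hx y hy) (exc_fin h hchi) xi hcp hfin
    (fun b hb1 hb2 => hxi b (isRel_of_isSel1 ⟨hb1, hb2⟩))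
  have hxY : (fun v : bad h => xi v.1 - S.loc v.1 om) ∈ S.CPU (bad h) h := fun v => by
    beta_reduce
    rw [sub_eq_add_neg, neg_VV]
    exact CP_add h (hcp v.1) (loc_mem_CP hom v.1)
  obtain ⟨b0, hb0, z, hb0e⟩ := exists_rel_of_orth h hB hchi (x := ⟨_, hxY⟩) (fun b hb => by
      have h1 : ∀ v ∈ S.good, S.sy v (xi v - S.loc v om) (S.loc v b) = 0 := fun v hv => by
        refine h.isot chi hchi v _ ?_ _ (hb.2 v hv)
        have h2 := (S.W chi v).neg_mem (hloc v)
        rwa [neg_sub] at h2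
      have h3 : ∑ᶠ v, S.sy v (xi v - S.loc v om) (S.loc v b) = 0 := by
        have h4 : ∀ v, S.sy v (xi v - S.loc v om) (S.loc v b) =
            S.sy v (xi v) (S.loc v b) + S.sy v (S.loc v om) (S.loc v b) := by
          intro v
          rw [sub_eq_add_neg, neg_VV, sy_add_left]
        have hs : {v | S.sy v (xi v) (S.loc v b) ≠ 0}.Finite := by
          refine (hfin.union h.good_fin).subset fun v hv => ?_
          by_contra hc
          rw [Set.mem_union, not_or] at hc
          exact hv (h.isot chi hchi v _ (not_not.1 hc.1) _ (hb.2 v (not_not.1 hc.2)))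
        rw [finsum_congr h4, finsum_add_distrib hs (sy_supp h hom hb.1), hxi b hb,
          h.recip om b hom hb.1, add_zero]
      rw [bY_apply, bU_apply]
      rw [finsum_bad h h1] at h3
      exact h3)
  refine ⟨om + b0, hom.add h hb0.1, fun v hv => ?_, fun v hv => ?_⟩
  · have h1 := hb0e ⟨v, mem_bad.2 hv⟩
    refine ⟨z ⟨v, mem_bad.2 hv⟩, ?_⟩
    rw [loc_add, h1]
    change S.loc v om + (xi v - S.loc v om + S.cob v (z ⟨v, mem_bad.2 hv⟩)) = _
    abel
  · have h1 := (S.W chi v).add_mem (hloc v) (hb0.2 v hv)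
    rw [loc_add]
    have h2 : S.loc v om + S.loc v b0 - xi v = S.loc v om - xi v + S.loc v b0 := by abel
    rw [h2]
    exact h1

/-- Duality without condition at the bad places and test elements in the strict Selmer group. -/
theorem dualS (h : S.Ok) (hB : BadOk S) (hchi : S.HomG chi) {xi : Pl → V1 × V1}
    (hcp : ∀ v, xi v ∈ S.CP v)
    (hfin0 : {v | v ∈ S.good ∧ xi v ∉ S.Wl chi v}.Finite)
    (hxi : ∀ b, IsStr S chi b → ∑ᶠ v, S.sy v (xi v) (S.loc v b) = 0) :
    ∃ om : G → V1, S.CocG om ∧ ∀ v ∈ S.good, S.loc v om - xi v ∈ S.W chi v := by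
  classical
  have hfin := Dual_fin h hfin0
  have := h.fin1
  have : Module.Finite (ZMod 2) V1 := Module.Finite.of_finite
  have hs : ∀ b, S.IsSel1 chi b → {v | S.sy v (xi v) (S.loc v b) ≠ 0}.Finite := by
    intro b hb
    refine hfin.subset fun v hv hW => hv ?_
    exact h.isot chi hchi v _ hW _ (hb.2 v)
  let M := AddSubgroup.toZModSubmodule 2 (S.Sel1 h chi)
  have hM : ∀ b, b ∈ M ↔ S.IsSel1 chi b := fun b => Iff.rfl
  let f : M →ₗ[ZMod 2] ZMod 2 := (AddMonoidHom.toZModLinearMap 2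
    { toFun := fun b => ∑ᶠ v, S.sy v (xi v) (S.loc v b.1)
      map_zero' := by
        refine finsum_eq_zero_of_forall_eq_zero fun v => ?_
        exact sy_zero_right v _
      map_add' := fun b b' => by
        rw [← finsum_add_distrib (hs _ b.2) (hs _ b'.2)]
        refine finsum_congr fun v => ?_
        change S.sy v (xi v) (S.loc v b.1 + S.loc v b'.1) = _
        exact sy_add_right v _ _ _ })
  have hf : ∀ b : M, f b = ∑ᶠ v, S.sy v (xi v) (S.loc v b.1) := fun b => rfl
  let Φ : M →ₗ[ZMod 2] S.CPU (bad h) h :=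
    { toFun := fun b => lcY h (b := b.1) ((hM b.1).1 b.2).1
      map_add' := fun _ _ => rfl
      map_smul' := fun _ _ => rfl }
  obtain ⟨eta, heta⟩ := exists_rep (bY h) (bY_comm h) Φ f fun b hb => by
    rw [hf]
    refine hxi _ ⟨b.2, fun v hv => ?_⟩
    obtain ⟨z, hz⟩ := rad_cob h hB hb
    exact ⟨_, hz ⟨v, mem_bad.2 hv⟩⟩
  have he : ∀ b : M, S.bU (bad h) eta.1 (fun v => S.loc v.1 b.1) =
      ∑ᶠ v, S.sy v (xi v) (S.loc v b.1) := fun b => (heta b).trans (hf b)
  let et : Pl → V1 × V1 := fun v => if hv : v ∈ bad h then eta.1 ⟨v, hv⟩ else 0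
  have hxg : ∀ v ∈ S.good, et v = 0 := fun v hv => dif_neg fun hb => (mem_bad.1 hb) hv
  have hxb : ∀ v : bad h, et v.1 = eta.1 v := fun v => dif_pos v.2
  have het : ∀ v, et v ∈ S.CP v := by
    intro v
    by_cases hv : v ∈ S.good
    · rw [hxg v hv]
      exact zero_mem_CP h v
    · have h1 := eta.2 ⟨v, mem_bad.2 hv⟩
      rw [← hxb] at h1
      exact h1
  obtain ⟨om, hom, hloc⟩ := h.dual (S.W chi) (fun v => Wl_sub_CP h hchi v)
    (fun v z => cob_mem_Wl h chi v z) (card_W h hchi)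
    (fun v x hx y hy => h.isot chi hchi v x hx y hy) (exc_fin h hchi) (fun v => xi v + et v)
    (fun v => CP_add h (hcp v) (het v))
    ((hfin.union h.good_fin).subset fun v hv => by
      by_contra hc
      rw [Set.mem_union, not_or] at hc
      apply hv
      rw [hxg v (not_not.1 hc.2), add_zero]
      exact not_not.1 hc.1)
    (fun b hb1 hb2 => by
      have h4 : ∀ v, S.sy v (xi v + et v) (S.loc v b) =
          S.sy v (xi v) (S.loc v b) + S.sy v (et v) (S.loc v b) := fun v => sy_add_left v _ _ _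
      have h5 : {v | S.sy v (et v) (S.loc v b) ≠ 0}.Finite := by
        refine h.good_fin.subset fun v hv hg => hv ?_
        rw [hxg v hg, sy_zero_left]
      have h6 : ∑ᶠ v, S.sy v (et v) (S.loc v b) =
          S.bU (bad h) eta.1 (fun v => S.loc v.1 b) := by
        rw [finsum_bad h fun v hv => by rw [hxg v hv, sy_zero_left], bU_apply]
        exact Finset.sum_congr rfl fun v _ => by rw [hxb]
      rw [finsum_congr h4, finsum_add_distrib (hs b ⟨hb1, hb2⟩) h5, h6,
        he ⟨b, (hM b).2 ⟨hb1, hb2⟩⟩]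
      exact CharTwo.add_self_eq_zero _)
  refine ⟨om, hom, fun v hv => ?_⟩
  have h1 := hloc v
  rwa [hxg v hv, add_zero] at h1

end Pool.Agent.SmNH
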