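import Pool.Agent.Lib.SmNH.G.CTrAdd
import Pool.Agent.Lib.SmNH.Q.Tor
import Pool.Agent.Lib.SmNH.StmtI

/-!
# HEIGHTS over SMITH-U, block G_h, module Recur: the recursion for the number of elements of height
zero

`two_nH`: `2 S_(i+1)` is the sum of the signs of the rigid Cassels-Tate pairings of the elements
counted by `S_i` with the relaxed Selmer group, plus the sum of the signs of the height of the
elements of level `i + 1` whose doubles are counted by `S_i`.
-/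

set_option autoImplicit false

namespace Pool.Agent.SmNH.Rec

open Pool.Agent.SmNH Pool.Agent.SmN Pool.Agent.SmN.Sys

section fin

variable {α R : Type*}

/-- A finite sum over a subtype as a sum over a finite set. -/
theorem fsub [AddCommMonoid R] {P : α → Prop} [DecidablePred P] (F : Finset α)
    (hF : ∀ x, P x → x ∈ F) (f : α → R) :
    ∑ᶠ x : {x // P x}, f x.1 = ∑ x ∈ F, if P x then f x else 0 := by
  have h1 : ∀ x, x ∈ F.filter P ↔ P x := fun x => by
    rw [Finset.mem_filter]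
    exact ⟨fun h => h.2, fun h => ⟨hF x h, h⟩⟩
  have : Fintype {x // P x} := Fintype.subtype _ h1
  rw [finsum_eq_sum_of_fintype, ← Finset.sum_filter, Finset.sum_subtype (F.filter P) h1]

theorem csub {P : α → Prop} [DecidablePred P] (F : Finset α) (hF : ∀ x, P x → x ∈ F) :
    Nat.card {x // P x} = (F.filter P).card :=
  Nat.subtype_card _ fun x => by
    rw [Finset.mem_filter]
    exact ⟨fun h => h.2, fun h => ⟨hF x h, h⟩⟩

end fin

variable {G V V1 Pl M : Type} [Group G] [AddCommGroup V] [DistribMulAction G V]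
  [AddCommGroup V1] [Module (ZMod 2) V1] [AddCommGroup M] [DistribMulAction G M]
  {S : Sys G V V1 Pl} {H : HData V M Pl} {chi : G → ZMod 2} {i : ℕ}

/-- `2 ^ (i - 1) y` comes from the torsion. -/
def TopK (chi : G → ZMod 2) (i : ℕ) (y : (G → V) × (Pl → V)) : Prop :=
  ∃ z : V, (2 : ℕ) ^ 2 • z = 0 ∧ ∀ s, (2 : ℕ) ^ (i - 1) • y.1 s = dl chi z s

theorem topK_two (hi : 1 ≤ i) (y : (G → V) × (Pl → V)) :
    TopK chi i ((2 : ℕ) • y) ↔ TopK chi (i + 1) y := by
  obtain ⟨j, rfl⟩ := Nat.exists_eq_add_of_le' hi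
  have e : ∀ s, (2 : ℕ) ^ (j + 1 - 1) • ((2 : ℕ) • y).1 s = (2 : ℕ) ^ (j + 1 + 1 - 1) • y.1 s := by
    intro s
    rw [Nat.add_sub_cancel, Nat.add_sub_cancel, Prod.smul_fst, Pi.smul_apply, smul_smul, ← pow_succ]
  simp only [TopK, e]

theorem isZ_iff (y : (G → V) × (Pl → V)) : IsZ S H chi i y ↔
    IsPr S chi i y ∧ ¬ TopK chi i y ∧ q S H chi i y = 0 :=
  ⟨fun h => ⟨h.pr, h.top, h.q0⟩, fun h => ⟨h.1, h.2.1, h.2.2⟩⟩

/-- The height takes two values on the elements whose double has height zero. -/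
theorem q_cases (h : S.Ok) (hH : HOk S H) (hchi : S.HomG chi) {y : (G → V) × (Pl → V)}
    (hy : IsPr S chi (i + 1) y) (h0 : q S H chi i ((2 : ℕ) • y) = 0) :
    q S H chi (i + 1) y = 0 ∨ q S H chi (i + 1) y = H.j 1 := by
  rw [q_two h hH hchi hy] at h0
  obtain ⟨a, ha⟩ := hH.two _ h0
  rcases (by decide : ∀ a : ZMod 2, a = 0 ∨ a = 1) a with rfl | rfl
  · left
    rw [← ha, map_zero]
  · right
    rw [ha]

open Classical in
/-- The recursion. `hcl` is the number of the lifts (`card_lift_sum`). -/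
theorem two_nH_of (h : S.Ok) (hH : HOk S H) (hchi : S.HomG chi)
    (hf : Finite {b : G → V1 // IsRel S chi b})
    (hcl : ∀ P : (G → V) × (Pl → V) → Prop,
      (Nat.card {y' : (G → V) × (Pl → V) // IsPr S chi (i + 1) y' ∧ P ((2 : ℕ) • y')} : ℤ) =
        ∑ᶠ y : {y : (G → V) × (Pl → V) // IsPr S chi i y ∧ P y},
          ∑ᶠ b : {b : G → V1 // IsRel S chi b}, sgn (CTr S chi y.1 b.1)) (hi : 1 ≤ i) :
    2 * (nH S H chi (i + 1) : ℤ) =
      ∑ᶠ y : {y : (G → V) × (Pl → V) // IsZ S H chi i y},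
        ∑ᶠ b : {b : G → V1 // IsRel S chi b}, sgn (CTr S chi y.1 b.1) +
      ∑ᶠ y : {y : (G → V) × (Pl → V) // IsPr S chi (i + 1) y ∧ ¬ TopK chi (i + 1) y ∧
          q S H chi i ((2 : ℕ) • y) = 0},
        if q S H chi (i + 1) y.1 = 0 then (1 : ℤ) else -1 := by
  have hfin : ∀ i, {y : (G → V) × (Pl → V) | IsPr S chi i y}.Finite := fun i =>
    finite_isPr h hchi hf i
  set F := (hfin i).toFinset with hF
  set F' := (hfin (i + 1)).toFinset with hF'
  have memF : ∀ y, y ∈ F ↔ IsPr S chi i y := fun y => by rw [hF, Set.Finite.mem_toFinset]; rfl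
  have memF' : ∀ y, y ∈ F' ↔ IsPr S chi (i + 1) y := fun y => by
    rw [hF', Set.Finite.mem_toFinset]; rfl
  have h1 := hcl (fun y => ¬ TopK chi i y ∧ q S H chi i y = 0)
  simp only [topK_two hi] at h1
  -- the first sum
  have h2 : ∑ᶠ y : {y : (G → V) × (Pl → V) // IsZ S H chi i y},
      ∑ᶠ b : {b : G → V1 // IsRel S chi b}, sgn (CTr S chi y.1 b.1) =
      ∑ᶠ y : {y : (G → V) × (Pl → V) // IsPr S chi i y ∧ ¬ TopK chi i y ∧ q S H chi i y = 0},
      ∑ᶠ b : {b : G → V1 // IsRel S chi b}, sgn (CTr S chi y.1 b.1) := by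
    rw [fsub F (fun y hy => (memF y).2 hy.pr)
        (fun y => ∑ᶠ b : {b : G → V1 // IsRel S chi b}, sgn (CTr S chi y b.1)),
      fsub F (fun y hy => (memF y).2 hy.1)
        (fun y => ∑ᶠ b : {b : G → V1 // IsRel S chi b}, sgn (CTr S chi y b.1))]
    simp only [isZ_iff]
  rw [h2, ← h1, csub F' fun y hy => (memF' y).2 hy.1,
    fsub F' (fun y hy => (memF' y).2 hy.1) (fun y => if q S H chi (i + 1) y = 0 then (1 : ℤ)
      else -1), nH, csub F' fun y hy => (memF' y).2 hy.pr, Finset.card_filter, Finset.card_filter]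
  push_cast
  rw [Finset.mul_sum, ← Finset.sum_add_distrib]
  refine Finset.sum_congr rfl fun y hy => ?_
  have hpr := (memF' y).1 hy
  have hz : IsZ S H chi (i + 1) y ↔ (IsPr S chi (i + 1) y ∧ ¬ TopK chi (i + 1) y ∧
      q S H chi i ((2 : ℕ) • y) = 0) ∧ q S H chi (i + 1) y = 0 := by
    rw [isZ_iff]
    constructor
    · rintro ⟨h3, h4, h5⟩
      exact ⟨⟨h3, h4, by rw [q_two h hH hchi hpr, h5, smul_zero]⟩, h5⟩
    · rintro ⟨⟨h3, h4, _⟩, h5⟩
      exact ⟨h3, h4, h5⟩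
  by_cases h3 : IsPr S chi (i + 1) y ∧ ¬ TopK chi (i + 1) y ∧ q S H chi i ((2 : ℕ) • y) = 0
  · by_cases h4 : q S H chi (i + 1) y = 0
    · rw [if_pos (hz.2 ⟨h3, h4⟩), if_pos h3, if_pos h3, if_pos h4]; norm_num
    · rw [if_neg fun h5 => h4 (hz.1 h5).2, if_pos h3, if_pos h3, if_neg h4]; norm_num
  · rw [if_neg fun h5 => h3 (hz.1 h5).1, if_neg h3, if_neg h3]; norm_num

open Classical in
/-- The sum of the signs of the height vanishes if there is a strict Selmer element with odd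
pairing. -/
theorem sum_sign_zero (h : S.Ok) (hH : HOk S H) (hchi : S.HomG chi) (hi : 1 ≤ i)
    {a b : G → V1} (hb : IsStr S chi b)
    (h1 : ∑ᶠ (v : Pl) (_ : v ∈ S.good),
      (H.deg v : ZMod 2) * S.e (a (S.sg v)) (b (S.sg v)) = 1) :
    ∑ᶠ y : {y : (G → V) × (Pl → V) // (IsPr S chi (i + 1) y ∧
        ∀ s, (2 : ℕ) ^ (i + 1 - 1) • y.1 s = S.iota (a s)) ∧ q S H chi i ((2 : ℕ) • y) = 0},
      (if q S H chi (i + 1) y.1 = 0 then (1 : ℝ) else -1) = 0 := by
  obtain ⟨w, hw, hw0⟩ : ∃ w : Pl → V1, (∀ v, v ∉ S.good → S.loc v b = S.cob v (w v)) ∧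
      ∀ v ∈ S.good, w v = 0 := by
    refine ⟨fun v => if hv : v ∉ S.good then (hb.2 v hv).choose else 0, fun v hv => ?_,
      fun v hv => dif_neg (not_not.2 hv)⟩
    simp only [dif_pos hv]
    exact (hb.2 v hv).choose_spec
  set t : (G → V) × (Pl → V) := prB S b w with ht
  have ht1 : IsPr S chi (i + 1) t := (isPr_prB_iff h hchi).2 ⟨hb.1, hw, hw0⟩
  have ht2 : (2 : ℕ) • t = 0 := two_prB b w
  have htt : t + t = 0 := by rw [← two_nsmul, ht2]
  have hqt : q S H chi (i + 1) t = 0 := by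
    obtain ⟨j, rfl⟩ := Nat.exists_eq_add_of_le' hi
    exact q_prB h hH hchi hb.1 hw hw0
  have key : ∀ y : (G → V) × (Pl → V), (IsPr S chi (i + 1) y ∧
      ∀ s, (2 : ℕ) ^ (i + 1 - 1) • y.1 s = S.iota (a s)) ∧ q S H chi i ((2 : ℕ) • y) = 0 →
      ((IsPr S chi (i + 1) (y + t) ∧ ∀ s, (2 : ℕ) ^ (i + 1 - 1) • (y + t).1 s = S.iota (a s)) ∧
        q S H chi i ((2 : ℕ) • (y + t)) = 0) ∧
      q S H chi (i + 1) (y + t) = q S H chi (i + 1) y + H.j 1 := by
    rintro y ⟨⟨hy, ha⟩, h0⟩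
    refine ⟨⟨⟨hy.add h ht1, fun s => ?_⟩, ?_⟩, ?_⟩
    · have e : (2 : ℕ) ^ (i + 1 - 1) • t.1 s = 0 := by
        obtain ⟨j, rfl⟩ := Nat.exists_eq_add_of_le' hi
        rw [Nat.add_sub_cancel, pow_succ, mul_smul]
        change _ • ((2 : ℕ) • S.iota (b s)) = 0
        rw [two_iota, smul_zero]
      rw [Prod.fst_add, Pi.add_apply, smul_add, ha, e, add_zero]
    · rw [smul_add, ht2, add_zero, h0]
    · rw [q_add, hqt, add_zero, bb_prB h hH hchi hy hb.1 hw hw0]
      congr 2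
      rw [← h1]
      refine finsum_congr fun v => ?_
      have e := ha (S.sg v)
      rw [Nat.add_sub_cancel] at e
      rw [Sys.top, e, un_iota h]
  let e : {y : (G → V) × (Pl → V) // (IsPr S chi (i + 1) y ∧
        ∀ s, (2 : ℕ) ^ (i + 1 - 1) • y.1 s = S.iota (a s)) ∧ q S H chi i ((2 : ℕ) • y) = 0} ≃
      {y : (G → V) × (Pl → V) // (IsPr S chi (i + 1) y ∧
        ∀ s, (2 : ℕ) ^ (i + 1 - 1) • y.1 s = S.iota (a s)) ∧ q S H chi i ((2 : ℕ) • y) = 0} :=
    { toFun := fun y => ⟨y.1 + t, (key y.1 y.2).1⟩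
      invFun := fun y => ⟨y.1 + t, (key y.1 y.2).1⟩
      left_inv := fun y => Subtype.ext (by
        change y.1 + t + t = y.1
        rw [add_assoc, htt, add_zero])
      right_inv := fun y => Subtype.ext (by
        change y.1 + t + t = y.1
        rw [add_assoc, htt, add_zero]) }
  have hj : H.j 1 ≠ 0 := fun h0 => one_ne_zero (hH.inj (h0.trans (map_zero H.j).symm))
  have hjj : H.j 1 + H.j 1 = 0 := by
    rw [← map_add]
    exact map_zero H.j
  have h2 := finsum_comp_equiv e (f := fun y => if q S H chi (i + 1) y.1 = 0 then (1 : ℝ) else -1)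
  have h3 : ∀ y, (if q S H chi (i + 1) (e y).1 = 0 then (1 : ℝ) else -1) =
      -(if q S H chi (i + 1) y.1 = 0 then (1 : ℝ) else -1) := by
    intro y
    have e1 : q S H chi (i + 1) (e y).1 = q S H chi (i + 1) y.1 + H.j 1 := (key y.1 y.2).2
    rw [e1]
    rcases q_cases h hH hchi y.2.1.1 y.2.2 with h4 | h4
    · rw [h4, zero_add, if_neg hj, if_pos rfl]
    · rw [h4, hjj, if_pos rfl, if_neg hj, neg_neg]
  rw [finsum_congr h3, finsum_neg_distrib] at h2
  linarith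

end Pool.Agent.SmNH.Rec
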